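import Pool.Agent.AAL.LowerG

/-!
# The number of points of the line of exact degree `n` over `k`, from below

At least `c B ^ (n + 1)` elements of the algebraic closure have degree `n` over `k` and height
relative to `k(x)` at most `B`.
-/

set_option autoImplicit false

open Polynomial NumberField IntermediateField Module Pool.Agent.AA Pool.Agent.AAL

namespace Pool.Agent.HD

/-- The lower bound `c B ^ (n + 1)` for the number of points of exact degree `n`. -/
theorem lower_all (k : Type) [Field k] [NumberField k] (n : ℕ) (hn : 1 ≤ n) :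
    ∃ c B₀ : ℝ, 0 < c ∧ ∀ B : ℝ, B₀ ≤ B → ∃ S : Finset (AlgebraicClosure k),
      c * B ^ (n + 1) ≤ (S.card : ℝ) ∧
      ∀ x ∈ S, finrank k (IntermediateField.adjoin k {x}) = n ∧ relHeight x ≤ B := by
  classical
  set g₁ : (𝓞 k)[X] := X with hg₁def
  have hmap : g₁.map (algebraMap (𝓞 k) k) = C ((1 : 𝓞 k) : k) * (X : k[X]) := by
    have h1 : ((1 : 𝓞 k) : k) = 1 := map_one (algebraMap (𝓞 k) k)
    rw [hg₁def, Polynomial.map_X, h1, C_1, one_mul]
  have hdeg : g₁.natDegree = 1 := natDegree_X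
  have hg₁0 : g₁ ≠ 0 := X_ne_zero
  set d : ℕ := finrank ℚ k with hd
  have hd0 : (0 : ℝ) < d := Nat.cast_pos.2 finrank_pos
  obtain ⟨l, hl, y₀, hirr⟩ := exists_irr k g₁ hg₁0 n (by omega) (by omega)
  set T : Finset (Fin (n + 1)) := ∅ with hT
  set i₀ : Fin (n + 1) := Fin.last n with hi₀
  have htop : i₀ ∉ T := Finset.notMem_empty _
  have hcardT : (T.card : ℝ) = 0 := by rw [hT]; simp
  obtain ⟨c, R₁, hc, hR₁, hcount⟩ := le_card_box k T i₀ htop l hl y₀ 1 one_pos le_rfl
  obtain ⟨Y, hY1, hsieve⟩ := sieve k g₁ hg₁0 (n := n) (by omega) T i₀ htop l y₀ 1 one_pos le_rfl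
    (by
      rw [hcardT]
      have : (1 : ℝ) ≤ n := by exact_mod_cast hn
      linarith) (c / 2) (by linarith)
  obtain ⟨N, hN⟩ := fibre_le k g₁ hg₁0 (n := n) (by omega) Y
  obtain ⟨C₀, hC₀, hcoef⟩ := coeff_form_le g₁ n
  set C₁ : ℝ := ((n + 1) * C₀) ^ d with hC₁def
  have hC₁ : 0 < C₁ := by positivity
  set s : ℝ := (n : ℝ) + 1 with hs
  have hexp : (d : ℝ) * (n + 1 - T.card + 1 * T.card) = d * s := by rw [hcardT]; ring
  -- the count for a box
  have hbox : ∀ R : ℝ, R₁ ≤ R → ∃ S : Finset (AlgebraicClosure k),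
      c / 2 / (N + 1) * R ^ ((d : ℝ) * s) ≤ (S.card : ℝ) ∧
      ∀ x ∈ S, finrank k (IntermediateField.adjoin k {x}) = n ∧
          relHeight x ≤ C₁ * R ^ (d : ℝ) := by
    intro R hR1
    have hR : 1 ≤ R := hR₁.trans hR1
    have hRpos : 0 < R := by linarith
    have hbf : (box T i₀ l y₀ 1 R).Finite := box_finite k T i₀ l y₀ 1 R
    set G : Finset (Fin (n + 1) → 𝓞 k) := hbf.toFinset.filter
      (fun y => Ideal.absNorm (form g₁ y).contentIdeal < Y) with hG
    have hGmem : ∀ y, y ∈ G ↔ y ∈ box T i₀ l y₀ 1 R ∧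
        Ideal.absNorm (form g₁ y).contentIdeal < Y := by
      intro y
      rw [hG, Finset.mem_filter, Set.Finite.mem_toFinset]
    have hGcard : c / 2 * R ^ ((d : ℝ) * s) ≤ (G.card : ℝ) := by
      have e1 := hcount R hR1
      have e2 := hsieve R hR
      rw [← hd, hexp] at e1 e2
      have e3 : (box T i₀ l y₀ 1 R).ncard =
          G.card + {y ∈ box T i₀ l y₀ 1 R | Y ≤ Ideal.absNorm (form g₁ y).contentIdeal}.ncard := by
        have e4 : {y ∈ box T i₀ l y₀ 1 R | Y ≤ Ideal.absNorm (form g₁ y).contentIdeal}.ncard =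
            (hbf.toFinset.filter
              (fun y => ¬ Ideal.absNorm (form g₁ y).contentIdeal < Y)).card := by
          rw [← Set.ncard_coe_finset]
          congr 1
          ext y
          simp
        rw [e4, hG, Set.ncard_eq_toFinset_card _ hbf, Finset.card_filter_add_card_filter_not]
      have e5 : ((box T i₀ l y₀ 1 R).ncard : ℝ) = G.card +
          ({y ∈ box T i₀ l y₀ 1 R |
            Y ≤ Ideal.absNorm (form g₁ y).contentIdeal}.ncard : ℝ) := by
        exact_mod_cast e3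
      linarith
    -- a root of every form
    have hroot : ∀ y : Fin (n + 1) → 𝓞 k, ∃ x : AlgebraicClosure k,
        y ∈ box T i₀ l y₀ 1 R → aeval x ((form g₁ y).map (algebraMap (𝓞 k) k)) = 0 := by
      intro y
      by_cases hy : y ∈ box T i₀ l y₀ 1 R
      · obtain ⟨x, hx⟩ := IsAlgClosed.exists_aeval_eq_zero (AlgebraicClosure k)
          ((form g₁ y).map (algebraMap (𝓞 k) k)) (hirr y hy.1).1.degree_pos.ne'
        exact ⟨x, fun _ => hx⟩
      · exact ⟨0, fun h => absurd h hy⟩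
    choose f hf using hroot
    refine ⟨G.image f, ?_, ?_⟩
    · have hfib : ∀ x ∈ G.image f, (G.filter (fun y => f y = x)).card ≤ N + 1 := by
        intro x hx
        obtain ⟨y, hy, rfl⟩ := Finset.mem_image.1 hx
        obtain ⟨hy1, hy2⟩ := (hGmem y).1 hy
        have e1 := hN T i₀ l y₀ 1 R hRpos y hy1 htop hy2.le
        have e2 : (G.filter (fun y' => f y' = f y)).card ≤
            {y' ∈ box T i₀ l y₀ 1 R | ∃ c : k, (form g₁ y').map (algebraMap (𝓞 k) k) =
              C c * (form g₁ y).map (algebraMap (𝓞 k) k)}.ncard := by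
          rw [← Set.ncard_coe_finset]
          refine Set.ncard_le_ncard ?_ (hbf.subset (fun z hz => hz.1))
          intro y' hy'
          rw [Finset.mem_coe, Finset.mem_filter] at hy'
          obtain ⟨hy'1, hy'2⟩ := hy'
          have hb' := ((hGmem y').1 hy'1).1
          refine ⟨hb', ?_⟩
          have e3 := hf y' hb'
          rw [hy'2] at e3
          exact eq_smul_of_root k _ _ (hirr y hy1.1).1 (hirr y' hb'.1).1 (f y) (hf y hy1) e3
        omega
      have e3 := Finset.card_le_mul_card_image G (N + 1) hfib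
      have e4 : (G.card : ℝ) ≤ ((N : ℝ) + 1) * ((G.image f).card : ℝ) := by exact_mod_cast e3
      have hN0 : (0 : ℝ) < (N : ℝ) + 1 := by positivity
      rw [div_mul_eq_mul_div, div_le_iff₀ hN0]
      linarith
    · intro x hx
      obtain ⟨y, hy, rfl⟩ := Finset.mem_image.1 hx
      obtain ⟨hy1, hy2⟩ := (hGmem y).1 hy
      obtain ⟨i1, i2, i3⟩ := hirr y hy1.1
      have hxr := hf y hy1
      obtain ⟨hfin, -⟩ := root_form k (X : k[X]) 1 one_ne_zero g₁ hmap (n := n)
        (by rw [natDegree_X]) (by rw [natDegree_X]; exact hn) y i1 i2 i3 (f y) hxr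
      obtain ⟨hFn, hFlc⟩ := natDegree_form g₁ hg₁0 (n := n) (by omega) y i3
      have hF0 : form g₁ y ≠ 0 := by
        intro h
        rw [h, natDegree_zero] at hFn
        omega
      refine ⟨hfin, ?_⟩
      have hw : ∀ i, ∀ w : InfinitePlace k, w (y i : k) ≤ R := by
        intro i w
        refine (hy1.2.1 i w).trans ?_
        rw [if_neg (Finset.notMem_empty _)]
      have h1 := relHeight_le n (form g₁ y) (f y) hfin hFn hF0 hxr
      have h2 := lgM_le n (form g₁ y) (f y) hfin hFn hF0 hxr (C₀ * R) (by positivity)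
        (fun i ρ => hcoef y R hRpos.le hw i ρ)
      refine h1.trans ((Real.exp_le_exp.mpr h2).trans (le_of_eq ?_))
      rw [mul_comm, Real.exp_mul, Real.exp_log (by positivity), ← mul_assoc, ← hd,
        Real.mul_rpow (by positivity) hRpos.le, Real.rpow_natCast, Real.rpow_natCast]
  -- the choice of the box
  have hN0 : (0 : ℝ) < (N : ℝ) + 1 := by positivity
  refine ⟨c / 2 / (N + 1) * C₁ ^ (-s), max 1 (C₁ * R₁ ^ (d : ℝ)), by positivity, ?_⟩
  intro B hB
  have hB1 : 1 ≤ B := (le_max_left _ _).trans hB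
  have hB2 : C₁ * R₁ ^ (d : ℝ) ≤ B := (le_max_right _ _).trans hB
  have hB0 : 0 < B := by linarith
  set R : ℝ := (B / C₁) ^ (1 / (d : ℝ)) with hR
  have hBC : 0 < B / C₁ := div_pos hB0 hC₁
  have hRd : R ^ (d : ℝ) = B / C₁ := by
    rw [hR, ← Real.rpow_mul hBC.le, one_div, inv_mul_cancel₀ hd0.ne', Real.rpow_one]
  have hRge : R₁ ≤ R := by
    have e1 : R₁ = (R₁ ^ (d : ℝ)) ^ (1 / (d : ℝ)) := by
      rw [← Real.rpow_mul (by linarith), mul_one_div, div_self hd0.ne', Real.rpow_one]
    rw [e1, hR]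
    refine Real.rpow_le_rpow (Real.rpow_nonneg (by linarith) _) ?_ (by positivity)
    rw [le_div_iff₀ hC₁]
    linarith
  have hRpos : 0 < R := by linarith
  obtain ⟨S, hS1, hS2⟩ := hbox R hRge
  refine ⟨S, ?_, ?_⟩
  · have e1 : R ^ ((d : ℝ) * s) = C₁ ^ (-s) * B ^ s := by
      rw [Real.rpow_mul hRpos.le, hRd, Real.div_rpow hB0.le hC₁.le, Real.rpow_neg hC₁.le]
      ring
    have e2 : B ^ (n + 1) = B ^ s := by
      rw [hs, ← Real.rpow_natCast]
      push_cast
      rfl
    calc c / 2 / (N + 1) * C₁ ^ (-s) * B ^ (n + 1)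
        = c / 2 / (N + 1) * R ^ ((d : ℝ) * s) := by rw [e1, e2]; ring
      _ ≤ _ := hS1
  · intro x hx
    obtain ⟨j1, j3⟩ := hS2 x hx
    refine ⟨j1, ?_⟩
    rw [hRd] at j3
    refine j3.trans (le_of_eq ?_)
    field_simp

end Pool.Agent.HD
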