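import Pool.Agent.HD.Viol
import Pool.Agent.HD.NearAll

/-!
# The points which violate the height inequality
-/

set_option autoImplicit false

open Polynomial NumberField IntermediateField Module

namespace Pool.Agent.HD

/-- all points with a small discriminant -/
theorem viol_all (k : Type) [Field k] [NumberField k] (G : (𝓞 k)[X][X]) (hG : G.Monic)
    (A B : ℝ) (hA : 0 ≤ A) (hB : 0 ≤ B) (m : ℕ) : ∃ C : ℝ, ∀ T : ℝ, 0 ≤ T →
      {P ∈ Points k G m T | logDiscr P ≤ A * AA.height P.1 + B}.Finite ∧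
      ({P ∈ Points k G m T | logDiscr P ≤ A * AA.height P.1 + B}.ncard : ℝ) ≤
        C * Real.exp ((A * ex (finrank ℚ k) m + 2) * (finrank ℚ k * m) * T) := by
  have key : ∀ N : ℕ, 0 < N → ∃ C : ℝ, 1 ≤ C ∧ ∀ (K : Type) [Field K] [NumberField K],
      finrank ℚ K = N → ∀ T : ℝ, 0 ≤ T →
      {x : K | (False → IsIntegral ℤ x) ∧ SST.ht K x ≤ T}.Finite ∧
      ({x : K | (False → IsIntegral ℤ x) ∧ SST.ht K x ≤ T}.ncard : ℝ) ≤
        C * Real.exp (2 * N * T) := by
    intro N hN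
    obtain ⟨C, hC, h⟩ := card_height_le N hN
    refine ⟨C, hC, fun K _ _ hK T hT => ?_⟩
    simp only [false_imp_iff, true_and]
    exact h K hK T hT
  obtain ⟨C, h⟩ := viol_le k G hG False 2 zero_le_two key A B hA hB m
  refine ⟨C, fun T hT => ?_⟩
  have h1 := h T hT
  simp only [false_imp_iff, true_and] at h1
  exact h1

/-- the points with integral `x` and a small discriminant -/
theorem viol_int (k : Type) [Field k] [NumberField k] (G : (𝓞 k)[X][X]) (hG : G.Monic)
    (A B η : ℝ) (hA : 0 ≤ A) (hB : 0 ≤ B) (hη : 0 < η) (m : ℕ) : ∃ C : ℝ, ∀ T : ℝ, 0 ≤ T →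
      {P ∈ Points k G m T | IsIntegral ℤ P.1 ∧ logDiscr P ≤ A * AA.height P.1 + B}.Finite ∧
      ({P ∈ Points k G m T | IsIntegral ℤ P.1 ∧
        logDiscr P ≤ A * AA.height P.1 + B}.ncard : ℝ) ≤
        C * Real.exp ((A * ex (finrank ℚ k) m + 1 + η) * (finrank ℚ k * m) * T) := by
  have key : ∀ N : ℕ, 0 < N → ∃ C : ℝ, 1 ≤ C ∧ ∀ (K : Type) [Field K] [NumberField K],
      finrank ℚ K = N → ∀ T : ℝ, 0 ≤ T →
      {x : K | (True → IsIntegral ℤ x) ∧ SST.ht K x ≤ T}.Finite ∧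
      ({x : K | (True → IsIntegral ℤ x) ∧ SST.ht K x ≤ T}.ncard : ℝ) ≤
        C * Real.exp ((1 + η) * N * T) := by
    intro N hN
    obtain ⟨C, hC, h⟩ := card_int_le N hN η hη
    refine ⟨C, hC, fun K _ _ hK T hT => ?_⟩
    simp only [true_imp_iff]
    exact h K hK T hT
  obtain ⟨C, h⟩ := viol_le k G hG True (1 + η) (by linarith) key A B hA hB m
  refine ⟨C, fun T hT => ?_⟩
  have h1 := h T hT
  simp only [true_imp_iff] at h1
  rw [← add_assoc] at h1
  exact h1

/-- the points which violate the height inequality -/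
theorem q1_viol (k : Type) [Field k] [NumberField k] {r : ℕ} (p : Fin r → ℕ)
    [∀ t, Fact (p t).Prime] (hp : Function.Injective p) (g : k[X]) (hg : Squarefree g) (q : ℕ)
    (hq : q = g.natDegree ∨ q = g.natDegree + 1) (G : (𝓞 k)[X][X]) (hG : G.Monic) (m : ℕ)
    (hm : 2 ≤ m) (A ε a η : ℝ) (ha0 : 0 ≤ a) (ha2 : a ≤ 2) (ham : a ≤ m - 1)
    (hE : (A + a - ε) * ex (finrank ℚ k) m ≤ m - 1 - a) (hη : 0 < η) :
    ∃ C : ℝ, ∀ T : ℝ, 0 ≤ T →
      {P ∈ Points k G m T | finrank k (IntermediateField.adjoin k {P.1}) = m ∧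
        aeval P.1 g ≠ 0 ∧ logDiscr P + ε * AA.height P.1 <
          AA.proximity p g q P.1 + A * AA.height P.1}.Finite ∧
      ({P ∈ Points k G m T | finrank k (IntermediateField.adjoin k {P.1}) = m ∧
        aeval P.1 g ≠ 0 ∧ logDiscr P + ε * AA.height P.1 <
          AA.proximity p g q P.1 + A * AA.height P.1}.ncard : ℝ) ≤
        C * Real.exp ((m + 1 - a + η) * (finrank ℚ k * m) * T) := by
  classical
  set Ω := AlgebraicClosure k with hΩ
  set A' : ℝ := max (A + a - ε) 0 with hA'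
  have hA'0 : 0 ≤ A' := le_max_right _ _
  obtain ⟨C₁, h₁⟩ := near_all k p hp g hg q hq m hm a η ha0 ha2 hη
  obtain ⟨C₂, h₂⟩ := viol_all k G hG A' 0 hA'0 le_rfl m
  have hd : (0 : ℝ) ≤ finrank ℚ k * m := by positivity
  have hexp : A' * ex (finrank ℚ k) m + 2 ≤ m + 1 - a + η := by
    rcases max_cases (A + a - ε) 0 with ⟨h, _⟩ | ⟨h, _⟩
    · rw [hA', h]
      linarith
    · rw [hA', h, zero_mul]
      linarith
  refine ⟨max C₁ 0 * G.natDegree + max C₂ 0, fun T hT => ?_⟩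
  set V : Set (Ω × Ω) := {P ∈ Points k G m T | finrank k (IntermediateField.adjoin k {P.1}) = m ∧
        aeval P.1 g ≠ 0 ∧ logDiscr P + ε * AA.height P.1 <
          AA.proximity p g q P.1 + A * AA.height P.1} with hV
  set B : ℝ := Real.exp (finrank ℚ k * m * T) with hB
  have hB1 : 1 ≤ B := Real.one_le_exp (by positivity)
  obtain ⟨hn1, hn2⟩ := h₁ B hB1
  obtain ⟨hv1, hv2⟩ := h₂ T hT
  set V₁ : Set (Ω × Ω) := {P ∈ Points k G m T |
    finrank k (IntermediateField.adjoin k {P.1}) = m ∧ aeval P.1 g ≠ 0 ∧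
      a * AA.height P.1 ≤ AA.proximity p g q P.1} with hV₁
  have hBpow : B ^ ((m : ℝ) + 1 - a + η) =
      Real.exp ((m + 1 - a + η) * (finrank ℚ k * m) * T) := by
    rw [hB, ← Real.exp_mul]
    congr 1
    ring
  have hnear := AA.UpperAux.ncard_le_of_fiber V₁ Prod.fst _ hn1 ?_ (G.natDegree : ℝ) ?_
  · have hsub : V ⊆ V₁ ∪ {P ∈ Points k G m T | logDiscr P ≤ A' * AA.height P.1 + 0} := by
      rintro P ⟨hP, hP1, hP2, hP3⟩
      rcases le_or_gt (a * AA.height P.1) (AA.proximity p g q P.1) with h | h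
      · exact Or.inl ⟨hP, hP1, hP2, h⟩
      · refine Or.inr ⟨hP, ?_⟩
        have h4 : (A + a - ε) * AA.height P.1 ≤ A' * AA.height P.1 :=
          mul_le_mul_of_nonneg_right (le_max_left _ _) (AA.UpperAux.height_nonneg _)
        have h5 : (A + a - ε) * AA.height P.1 =
            A * AA.height P.1 + a * AA.height P.1 - ε * AA.height P.1 := by ring
        linarith
    refine ⟨(hnear.1.union hv1).subset hsub, ?_⟩
    have h5 : (V.ncard : ℝ) ≤ V₁.ncard +
        {P ∈ Points k G m T | logDiscr P ≤ A' * AA.height P.1 + 0}.ncard := by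
      exact_mod_cast (Set.ncard_le_ncard hsub (hnear.1.union hv1)).trans
        (Set.ncard_union_le _ _)
    set X : ℝ := Real.exp ((m + 1 - a + η) * (finrank ℚ k * m) * T) with hX
    have hX0 : 0 ≤ X := (Real.exp_pos _).le
    have h6 : (V₁.ncard : ℝ) ≤ max C₁ 0 * X * G.natDegree := by
      refine hnear.2.trans (mul_le_mul_of_nonneg_right (hn2.trans ?_) (Nat.cast_nonneg _))
      rw [hBpow]
      exact mul_le_mul_of_nonneg_right (le_max_left _ _) hX0
    have h7 : ({P ∈ Points k G m T | logDiscr P ≤ A' * AA.height P.1 + 0}.ncard : ℝ) ≤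
        max C₂ 0 * X := by
      refine hv2.trans ?_
      refine mul_le_mul (le_max_left _ _) ?_ (Real.exp_pos _).le (le_max_right _ _)
      apply Real.exp_le_exp.2
      exact mul_le_mul_of_nonneg_right (mul_le_mul_of_nonneg_right hexp hd) hT
    calc (V.ncard : ℝ) ≤ max C₁ 0 * X * G.natDegree + max C₂ 0 * X := h5.trans (add_le_add h6 h7)
      _ = _ := by ring
  · rintro P ⟨⟨hP1, hP2, hP3⟩, hP4, hP5, hP6⟩
    refine ⟨hP4, ?_, hP5, hP6⟩
    rw [AA.UpperAux.relHeight_eq, AA.UpperAux.finrank_eq _ m hP4, hB]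
    apply Real.exp_le_exp.2
    push_cast
    exact mul_le_mul_of_nonneg_left hP3 hd
  · intro x _
    obtain ⟨h4, h5⟩ := card_fibre_le G hG x
    have h6 : V₁ ∩ Prod.fst ⁻¹' {x} ⊆ (fun y => (x, y)) ''
        {y | (G.map (mapRingHom (algebraMap (𝓞 k) (AlgebraicClosure k)))).evalEval x y = 0} := by
      rintro P ⟨⟨hP, -⟩, hPb⟩
      have hPb' : P.1 = x := hPb
      refine ⟨P.2, ?_, ?_⟩
      · have := hP.1
        rw [hPb'] at this
        exact this
      · rw [← hPb']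
    refine ⟨(h4.image _).subset h6, ?_⟩
    exact Nat.cast_le.2 (((Set.ncard_le_ncard h6 (h4.image _)).trans
      (Set.ncard_image_le h4)).trans h5)

end Pool.Agent.HD
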