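import Pool.Agent.HD.Generic
import Mathlib.Data.Set.Card.Arithmetic

/-!
# The number of fields of given degree and bounded discriminant

For `N ≤ 2 ^ r` the number of the fields of degree `N` over `ℚ` whose discriminant is at most `Y` in
absolute value is at most `C Y ^ (r (r + 2))`.
-/

set_option autoImplicit false

open MvPolynomial Module NumberField IntermediateField

namespace Pool.Agent.HD

/-- a polynomial such that the point is determined up to finitely many choices and its first row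
has distinct entries -/
theorem exists_generic {N r : ℕ} (hN : 0 < N) (hr : 0 < r) (v : Fin N → Fin r → Fin 2)
    (hv : Function.Injective v) : ∃ (W : MvPolynomial (Fin r × Fin N) ℂ) (M : ℕ), W ≠ 0 ∧
      (∀ x, eval x W ≠ 0 → ∀ i i', x (⟨0, hr⟩, i) = x (⟨0, hr⟩, i') → i = i') ∧
      ∀ t : Fin r × Fin N → ℂ, ∃ T : Finset ℂ, T.card ≤ M ∧ ∀ x : Fin r × Fin N → ℂ,
        eval x W ≠ 0 → (∀ u, eval x (gP v u) = t u) → x (⟨0, hr⟩, ⟨0, hN⟩) ∈ T := by
  classical
  obtain ⟨Z, M, hZ, h⟩ := elim_one v hv (⟨0, hr⟩, ⟨0, hN⟩)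
  set Δ : MvPolynomial (Fin r × Fin N) ℂ :=
    ∏ p ∈ (Finset.univ : Finset (Fin N × Fin N)).filter (fun p => p.1 ≠ p.2),
      (X (⟨0, hr⟩, p.1) - X (⟨0, hr⟩, p.2)) with hΔ
  refine ⟨Z * Δ, M, mul_ne_zero hZ ?_, fun x hx i i' hii => ?_, fun t => ?_⟩
  · rw [hΔ, Finset.prod_ne_zero_iff]
    intro p hp h0
    rw [Finset.mem_filter] at hp
    apply hp.2
    have h1 := X_injective (R := ℂ) (sub_eq_zero.1 h0)
    exact (Prod.ext_iff.1 h1).2
  · by_contra hne
    apply hx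
    rw [map_mul, hΔ, map_prod]
    rw [Finset.prod_eq_zero (i := (i, i')) (by simp [hne]), mul_zero]
    simp [hii]
  · obtain ⟨T, hT, h1⟩ := h t
    refine ⟨T, hT, fun x hx => h1 x fun h0 => hx ?_⟩
    rw [map_mul, h0, zero_mul]

/-- the sums are traces -/
theorem eval_gP_eq_trace {K : Type} [Field K] [NumberField K] {N r : ℕ}
    (v : Fin N → Fin r → Fin 2) (e : Fin N ≃ (K →+* ℂ)) (α : Fin r → 𝓞 K) (u : Fin r × Fin N) :
    ∃ z : ℤ, eval (fun u : Fin r × Fin N => e u.2 (α u.1 : K)) (gP v u) = z := by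
  set a : 𝓞 K := aeval α (fP (v u.2) u.1) with ha
  have h1 : IsIntegral ℤ (Algebra.trace ℚ K (a : K)) := Algebra.isIntegral_trace a.2
  obtain ⟨z, hz⟩ := IsIntegrallyClosed.isIntegral_iff.1 h1
  refine ⟨z, ?_⟩
  rw [eval_gP]
  have h2 := trace_eq_sum_embeddings (K := ℚ) (L := K) ℂ (x := (a : K))
  rw [← hz] at h2
  have h3 : ((z : ℤ) : ℂ) = algebraMap ℚ ℂ (algebraMap ℤ ℚ z) := by simp
  rw [h3, h2, ← Equiv.sum_comp (e.trans (RingHom.equivRatAlgHom K ℂ))]
  refine Finset.sum_congr rfl fun i _ => ?_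
  have h4 : ((e.trans (RingHom.equivRatAlgHom K ℂ)) i) (a : K) = e i (a : K) := rfl
  rw [h4, ha]
  have h5 : ∀ (φ : K →+* ℂ) (p : MvPolynomial (Fin r) ℤ),
      aeval (fun j => φ (α j : K)) p = φ ((aeval α p : 𝓞 K) : K) := by
    intro φ p
    induction p using MvPolynomial.induction_on with
    | C a => simp
    | add p q hp hq => rw [map_add, map_add, hp, hq]; push_cast; rw [map_add]
    | mul_X p i hp => rw [map_mul, map_mul, hp, aeval_X, aeval_X]; push_cast; rw [map_mul]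
  exact h5 (e i) _

/-- integer vectors in a box -/
theorem box_card (I : Type) [Fintype I] (R : ℝ) (hR : 1 ≤ R) : ∃ B : Finset (I → ℤ),
    (B.card : ℝ) ≤ (3 * R) ^ Fintype.card I ∧
      ∀ t : I → ℤ, (∀ i, |(t i : ℝ)| ≤ R) → t ∈ B := by
  classical
  refine ⟨Fintype.piFinset fun _ => Finset.Icc (-⌊R⌋) ⌊R⌋, ?_, fun t ht => ?_⟩
  · rw [Fintype.card_piFinset, Finset.prod_const, Finset.card_univ, Int.card_Icc]
    push_cast
    have h0 : (0 : ℤ) ≤ ⌊R⌋ := Int.floor_nonneg.2 (by linarith)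
    have h1 : (((⌊R⌋ + 1 - -⌊R⌋).toNat : ℕ) : ℝ) = 2 * (⌊R⌋ : ℝ) + 1 := by
      have h2 : (((⌊R⌋ + 1 - -⌊R⌋).toNat : ℕ) : ℤ) = 2 * ⌊R⌋ + 1 := by
        rw [Int.toNat_of_nonneg (by linarith)]
        ring
      exact_mod_cast h2
    rw [h1]
    refine pow_le_pow_left₀ (by positivity) ?_ _
    have := Int.floor_le R
    linarith
  · rw [Fintype.mem_piFinset]
    intro i
    have h1 := abs_le.1 (ht i)
    rw [Finset.mem_Icc]
    constructor
    · rw [neg_le]
      apply Int.le_floor.2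
      push_cast
      linarith
    · exact Int.le_floor.2 h1.2

/-- every field of the right degree and discriminant is generated by a number with few
possibilities -/
theorem field_mem {N r : ℕ} (hN : 0 < N) (hr : 0 < r) (v : Fin N → Fin r → Fin 2)
    (W : MvPolynomial (Fin r × Fin N) ℂ) (C : ℝ) (hC : 1 ≤ C)
    (hWinj : ∀ x, eval x W ≠ 0 → ∀ i i', x (⟨0, hr⟩, i) = x (⟨0, hr⟩, i') → i = i')
    (hgen : ∀ (K : Type) [Field K] [NumberField K], finrank ℚ K = N →
      ∀ e : Fin N ≃ (K →+* ℂ), ∃ α : Fin r → 𝓞 K,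
        eval (fun u : Fin r × Fin N => e u.2 (α u.1 : K)) W ≠ 0 ∧
        ∀ j (φ : K →+* ℂ), ‖φ (α j : K)‖ ≤ C * |(discr K : ℝ)| ^ (1 / (N : ℝ)))
    (K : Type) [Field K] [NumberField K] (hK : finrank ℚ K = N) (φ₀ : K →+* ℂ) (Y : ℝ)
    (hY : |(discr K : ℝ)| ≤ Y) :
    ∃ (t : Fin r × Fin N → ℤ) (x : Fin r × Fin N → ℂ) (a : K), eval x W ≠ 0 ∧
      (∀ u, eval x (gP v u) = t u) ∧ x (⟨0, hr⟩, ⟨0, hN⟩) = φ₀ a ∧ ℚ⟮a⟯ = ⊤ ∧
      ∀ u, |(t u : ℝ)| ≤ N * (2 ^ (r + 1) * (C * Y ^ (1 / (N : ℝ))) ^ (r + 2)) := by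
  classical
  have hD1 : 1 ≤ |(discr K : ℝ)| := by
    have h1 : (1 : ℤ) ≤ |discr K| := Int.one_le_abs (discr_ne_zero K)
    exact_mod_cast h1
  obtain ⟨e0⟩ : Nonempty (Fin N ≃ (K →+* ℂ)) := by
    apply Fintype.card_eq.1
    rw [Fintype.card_fin, Embeddings.card, hK]
  set e : Fin N ≃ (K →+* ℂ) := (Equiv.swap ⟨0, hN⟩ (e0.symm φ₀)).trans e0 with he
  have he0 : e ⟨0, hN⟩ = φ₀ := by simp [he]
  obtain ⟨α, hα, hb⟩ := hgen K hK e
  choose t ht using fun u => eval_gP_eq_trace v e α u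
  refine ⟨t, fun u => e u.2 (α u.1 : K), (α ⟨0, hr⟩ : K), hα, ht, ?_, ?_, fun u => ?_⟩
  · show e ⟨0, hN⟩ _ = _
    rw [he0]
  · rw [Field.primitive_element_iff_algHom_eq_of_eval ℚ ℂ
      (fun x => IsAlgClosed.splits _) _ (RingHom.equivRatAlgHom K ℂ φ₀)]
    intro ψ hψ
    have h1 : e ⟨0, hN⟩ (α ⟨0, hr⟩ : K) =
        e (e.symm ((RingHom.equivRatAlgHom K ℂ).symm ψ)) (α ⟨0, hr⟩ : K) := by
      rw [he0, Equiv.apply_symm_apply]
      exact hψ
    have h2 := hWinj _ hα _ _ h1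
    have h3 := congrArg e h2
    rw [he0, Equiv.apply_symm_apply] at h3
    rw [h3, Equiv.apply_symm_apply]
  · set M : ℝ := C * Y ^ (1 / (N : ℝ)) with hM
    have hM1 : 1 ≤ M := one_le_mul_of_one_le_of_one_le hC
      (Real.one_le_rpow (hD1.trans hY) (by positivity))
    have h1 : ((t u : ℤ) : ℂ) = ∑ i', aeval (fun j' => e i' (α j' : K)) (fP (v u.2) u.1) := by
      rw [← ht u, eval_gP]
    have h2 : |(t u : ℝ)| = ‖((t u : ℤ) : ℂ)‖ := by rw [Complex.norm_intCast]
    rw [h2, h1]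
    refine (norm_sum_le _ _).trans ?_
    have h3 : ∀ i' : Fin N, ‖aeval (fun j' => e i' (α j' : K)) (fP (v u.2) u.1)‖ ≤
        2 ^ (r + 1) * M ^ (r + 2) := fun i' => norm_fP_le _ _ _ M hM1 fun j => by
      refine (hb j _).trans ?_
      rw [hM]
      gcongr
    refine (Finset.sum_le_sum fun i _ => h3 i).trans ?_
    rw [Finset.sum_const, Finset.card_univ, Fintype.card_fin, nsmul_eq_mul]

/-- **The number of fields.** For `[k : ℚ] n ≤ 2 ^ r` there are at most `C Y ^ (r (r + 2))`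
extensions of degree `n` of `k` in a subfield of `ℂ` whose discriminant is at most `Y` in absolute
value. -/
theorem field_count_log (k Ω : Type) [Field k] [NumberField k] [Field Ω] [Algebra k Ω]
    (ι : Ω →+* ℂ) (n r : ℕ) (hr : 0 < r) (hn : finrank ℚ k * n ≤ 2 ^ r) :
    ∃ C : ℝ, 1 ≤ C ∧ ∀ Y : ℝ, 1 ≤ Y →
    {F : IntermediateField k Ω | finrank k F = n ∧
      ∃ _ : NumberField F, |(discr F : ℝ)| ≤ Y}.Finite ∧
    ({F : IntermediateField k Ω | finrank k F = n ∧
      ∃ _ : NumberField F, |(discr F : ℝ)| ≤ Y}.ncard : ℝ) ≤ C * Y ^ (r * (r + 2)) := by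
  classical
  rcases Nat.eq_zero_or_pos n with rfl | hn0
  · refine ⟨1, le_rfl, fun Y hY => ?_⟩
    have : {F : IntermediateField k Ω | finrank k F = 0 ∧
        ∃ _ : NumberField F, |(discr F : ℝ)| ≤ Y} = ∅ := by
      rw [Set.eq_empty_iff_forall_notMem]
      rintro F ⟨h1, h2, -⟩
      have h3 : FiniteDimensional k F := FiniteDimensional.right ℚ k F
      have h4 : 0 < finrank k F := finrank_pos
      omega
    rw [this]
    refine ⟨Set.finite_empty, ?_⟩
    rw [Set.ncard_empty, Nat.cast_zero]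
    exact mul_nonneg zero_le_one (pow_nonneg (by linarith) _)
  set N := finrank ℚ k * n with hNdef
  have hN : 0 < N := Nat.mul_pos finrank_pos hn0
  obtain ⟨v⟩ : Nonempty (Fin N ↪ (Fin r → Fin 2)) := by
    apply Function.Embedding.nonempty_of_card_le
    simp only [Fintype.card_fin, Fintype.card_pi, Finset.prod_const, Finset.card_univ]
    exact hn
  obtain ⟨W, M, hW, hWinj, hWT⟩ := exists_generic hN hr v v.injective
  obtain ⟨C, hC, hgen⟩ := exists_generic_ints N r W hW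
  set C₁ : ℝ := 3 * (N * (2 ^ (r + 1) * C ^ (r + 2))) with hC₁
  have hN1 : (1 : ℝ) ≤ N := by exact_mod_cast hN
  have hC₁1 : 1 ≤ C₁ := by
    have h1 : (1 : ℝ) ≤ 2 ^ (r + 1) := one_le_pow₀ (by norm_num)
    have h2 : 1 ≤ C ^ (r + 2) := one_le_pow₀ hC
    have h3 : (1 : ℝ) ≤ N * (2 ^ (r + 1) * C ^ (r + 2)) :=
      one_le_mul_of_one_le_of_one_le hN1 (one_le_mul_of_one_le_of_one_le h1 h2)
    rw [hC₁]
    linarith
  refine ⟨C₁ ^ (r * N) * (M + 1), one_le_mul_of_one_le_of_one_le (one_le_pow₀ hC₁1)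
    (by linarith [(Nat.cast_nonneg M : (0 : ℝ) ≤ M)]), fun Y hY => ?_⟩
  have hY0 : 0 < Y := by linarith
  set R : ℝ := N * (2 ^ (r + 1) * (C * Y ^ (1 / (N : ℝ))) ^ (r + 2)) with hR
  have hR1 : 1 ≤ R := by
    have h1 : (1 : ℝ) ≤ 2 ^ (r + 1) := one_le_pow₀ (by norm_num)
    have h2 : 1 ≤ (C * Y ^ (1 / (N : ℝ))) ^ (r + 2) := one_le_pow₀
      (one_le_mul_of_one_le_of_one_le hC (Real.one_le_rpow hY (by positivity)))
    exact one_le_mul_of_one_le_of_one_le hN1 (one_le_mul_of_one_le_of_one_le h1 h2)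
  obtain ⟨B, hB, hBm⟩ := box_card (Fin r × Fin N) R hR1
  choose T hT hTm using hWT
  have hfinA : ∀ t : Fin r × Fin N → ℤ, {a : Ω | ι a ∈ T fun u => (t u : ℂ)}.Finite := fun t =>
    ((T fun u => (t u : ℂ)).finite_toSet).preimage (ι.injective.injOn)
  set f : (Fin r × Fin N → ℤ) → Set (IntermediateField k Ω) := fun t =>
    (fun a : Ω => IntermediateField.adjoin k {a}) '' {a : Ω | ι a ∈ T fun u => (t u : ℂ)} with hf
  have hsub : {F : IntermediateField k Ω | finrank k F = n ∧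
      ∃ _ : NumberField F, |(discr F : ℝ)| ≤ Y} ⊆ ⋃ t ∈ B, f t := by
    rintro F ⟨h1, h2, h3⟩
    have hFN : finrank ℚ F = N := by
      rw [← finrank_mul_finrank ℚ k F, h1]
    obtain ⟨t, x, a, hx, hxt, hxa, ha, hb⟩ := field_mem hN hr v W C hC hWinj hgen F hFN
      (ι.comp (algebraMap F Ω)) Y h3
    rw [Set.mem_iUnion₂]
    refine ⟨t, hBm t hb, (a : Ω), ?_, ?_⟩
    · change ι (a : Ω) ∈ T fun u => ((t u : ℤ) : ℂ)
      have h4 := hTm (fun u => (t u : ℂ)) x hx hxt
      rw [hxa] at h4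
      exact h4
    · show IntermediateField.adjoin k {(a : Ω)} = F
      have h5 : IntermediateField.adjoin k {a} = (⊤ : IntermediateField k F) := by
        rw [eq_top_iff]
        intro y _
        have h6 : y ∈ ℚ⟮a⟯ := by
          rw [ha]
          exact IntermediateField.mem_top
        induction h6 using IntermediateField.adjoin_induction with
        | mem x hx =>
          rw [Set.mem_singleton_iff.1 hx]
          exact IntermediateField.mem_adjoin_simple_self k a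
        | algebraMap x =>
          have : algebraMap ℚ F x = algebraMap k F (algebraMap ℚ k x) := by simp
          rw [this]
          exact IntermediateField.algebraMap_mem _ _
        | add x y _ _ h1 h2 => exact add_mem (h1 trivial) (h2 trivial)
        | inv x _ h1 => exact inv_mem (h1 trivial)
        | mul x y _ _ h1 h2 => exact mul_mem (h1 trivial) (h2 trivial)
      rw [← IntermediateField.lift_adjoin_simple, h5, IntermediateField.lift_top]
  have hfin : (⋃ t ∈ B, f t).Finite := B.finite_toSet.biUnion fun t _ => (hfinA t).image _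
  refine ⟨hfin.subset hsub, ?_⟩
  have hcard1 : ∀ t, ((f t).ncard : ℝ) ≤ M := by
    intro t
    have h1 : (f t).ncard ≤ {a : Ω | ι a ∈ T fun u => (t u : ℂ)}.ncard :=
      Set.ncard_image_le (hfinA t)
    have h2 : {a : Ω | ι a ∈ T fun u => (t u : ℂ)}.ncard ≤ (T fun u => (t u : ℂ)).card := by
      rw [← Set.ncard_coe_finset]
      exact Set.ncard_le_ncard_of_injOn ι (fun a ha => ha) ι.injective.injOn
        (Finset.finite_toSet _)
    exact_mod_cast h1.trans (h2.trans (hT _))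
  have hncard : ((⋃ t ∈ B, f t).ncard : ℝ) ≤ B.card * M := by
    have h1 := B.set_ncard_biUnion_le f
    calc ((⋃ t ∈ B, f t).ncard : ℝ) ≤ ((∑ t ∈ B, (f t).ncard : ℕ) : ℝ) := by exact_mod_cast h1
      _ = ∑ t ∈ B, ((f t).ncard : ℝ) := by push_cast; rfl
      _ ≤ ∑ t ∈ B, (M : ℝ) := Finset.sum_le_sum fun t _ => hcard1 t
      _ = B.card * M := by rw [Finset.sum_const, nsmul_eq_mul]
  have hpow : (3 * R) ^ (r * N) = C₁ ^ (r * N) * Y ^ (r * (r + 2)) := by
    have h1 : 3 * R = C₁ * (Y ^ (1 / (N : ℝ))) ^ (r + 2) := by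
      rw [hR, hC₁, mul_pow]
      ring
    rw [h1, mul_pow]
    congr 1
    rw [← Real.rpow_natCast, ← Real.rpow_natCast, ← Real.rpow_mul (by positivity),
      ← Real.rpow_mul hY0.le, ← Real.rpow_natCast]
    congr 1
    push_cast
    field_simp
  calc (({F : IntermediateField k Ω | finrank k F = n ∧
      ∃ _ : NumberField F, |(discr F : ℝ)| ≤ Y}.ncard : ℕ) : ℝ)
      ≤ ((⋃ t ∈ B, f t).ncard : ℝ) := by exact_mod_cast Set.ncard_le_ncard hsub hfin
    _ ≤ B.card * M := hncard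
    _ ≤ (3 * R) ^ (r * N) * (M + 1) := by
        rw [Fintype.card_prod, Fintype.card_fin, Fintype.card_fin] at hB
        refine mul_le_mul hB (by linarith) (Nat.cast_nonneg M) (by positivity)
    _ = C₁ ^ (r * N) * (M + 1) * Y ^ (r * (r + 2)) := by
        rw [hpow]
        ring

end Pool.Agent.HD
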