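import Pool.Agent.HD.Defs
import Pool.Agent.Leh2.HtExt

/-!
# The absolute height does not depend on the field
-/

set_option autoImplicit false

open Polynomial NumberField IntermediateField Module

namespace Pool.Agent.HD

/-- the absolute height does not depend on the field -/
theorem height_eq_ht {k : Type} [Field k] [NumberField k]
    (F : IntermediateField k (AlgebraicClosure k)) [NumberField F] (x : F) :
    AA.height (x : AlgebraicClosure k) = SST.ht F x := by
  have hle : IntermediateField.adjoin k {(x : AlgebraicClosure k)} ≤ F :=
    adjoin_simple_le_iff.2 x.2
  let : Algebra (IntermediateField.adjoin k {(x : AlgebraicClosure k)}) F :=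
    (IntermediateField.inclusion hle).toRingHom.toAlgebra
  have h := Leh2.nh_algebraMap (K := IntermediateField.adjoin k {(x : AlgebraicClosure k)})
    (L := F) (AdjoinSimple.gen k (x : AlgebraicClosure k))
  have e : algebraMap (IntermediateField.adjoin k {(x : AlgebraicClosure k)}) F
      (AdjoinSimple.gen k (x : AlgebraicClosure k)) = x :=
    Subtype.ext (AdjoinSimple.coe_gen k (x : AlgebraicClosure k))
  rw [e] at h
  exact h.symm

end Pool.Agent.HD
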