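import Pool.Agent.AA.ProdF
import Pool.Agent.AA.Upper

/-!
# The number of algebraic integers of bounded height in a number field, uniformly in the field

The integers `x` of `K` with `⌊log (max 1 |x|_w)⌋ = s w` for all places `w` are at most
`C exp (∑ mult w * s w)` in number, as two of them which are close to each other at all places are
equal.
-/

set_option autoImplicit false

open Polynomial NumberField IntermediateField Module

namespace Pool.Agent.HD

private noncomputable def icode (z : ℂ) : ℤ × ℤ := (⌊2 * z.re⌋, ⌊2 * z.im⌋)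

private theorem norm_lt_of_icode {z w : ℂ} (h : icode z = icode w) : ‖z - w‖ < 1 := by
  have h2 : ⌊2 * z.re⌋ = ⌊2 * w.re⌋ := congrArg Prod.fst h
  have h3 : ⌊2 * z.im⌋ = ⌊2 * w.im⌋ := congrArg Prod.snd h
  have h4 := Int.abs_sub_lt_one_of_floor_eq_floor h2
  have h5 := Int.abs_sub_lt_one_of_floor_eq_floor h3
  rw [← mul_sub, abs_mul, abs_two, ← Complex.sub_re] at h4
  rw [← mul_sub, abs_mul, abs_two, ← Complex.sub_im] at h5
  have h6 := Complex.norm_le_abs_re_add_abs_im (z - w)
  linarith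

private theorem mem_Icc_of_abs {R a : ℝ} (ha : |a| ≤ R) :
    ⌊2 * a⌋ ∈ Finset.Icc (-⌈2 * R⌉) ⌈2 * R⌉ := by
  have h1 := abs_le.1 ha
  have h2 := Int.le_ceil (2 * R)
  rw [Finset.mem_Icc, Int.le_floor]
  refine ⟨by push_cast; linarith, ?_⟩
  have h5 : ⌊2 * a⌋ ≤ ⌊2 * R⌋ := Int.floor_le_floor (by linarith)
  exact h5.trans (Int.floor_le_ceil _)

private theorem card_Icc_le {R : ℝ} (hR : 1 ≤ R) :
    ((Finset.Icc (-⌈2 * R⌉) ⌈2 * R⌉).card : ℝ) ≤ 7 * R := by
  have h0 : (0 : ℤ) ≤ ⌈2 * R⌉ := Int.ceil_nonneg (by linarith)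
  have h1 : ((Finset.Icc (-⌈2 * R⌉) ⌈2 * R⌉).card : ℤ) = 2 * ⌈2 * R⌉ + 1 := by
    rw [Int.card_Icc, Int.toNat_of_nonneg (by linarith)]
    ring
  have h2 : ((Finset.Icc (-⌈2 * R⌉) ⌈2 * R⌉).card : ℝ) = 2 * (⌈2 * R⌉ : ℝ) + 1 := by
    have : (((Finset.Icc (-⌈2 * R⌉) ⌈2 * R⌉).card : ℤ) : ℝ) = ((2 * ⌈2 * R⌉ + 1 : ℤ) : ℝ) := by
      rw [h1]
    push_cast at this
    exact this
  have h3 := Int.ceil_lt_add_one (2 * R)
  rw [h2]
  linarith

/-- the integers with prescribed bounds at the infinite places -/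
private theorem card_small2_le (K : Type) [Field K] [NumberField K] (R : InfinitePlace K → ℝ)
    (hR : ∀ w, 1 ≤ R w) : {a : 𝓞 K | ∀ w : InfinitePlace K, w (a : K) ≤ R w}.Finite ∧
      ({a : 𝓞 K | ∀ w : InfinitePlace K, w (a : K) ≤ R w}.ncard : ℝ) ≤
        ∏ w, (7 * R w) ^ w.mult := by
  classical
  set I : InfinitePlace K → Finset ℤ := fun w => Finset.Icc (-⌈2 * R w⌉) ⌈2 * R w⌉ with hI
  set F : Finset (InfinitePlace K → ℤ × ℤ) :=
    Fintype.piFinset fun w => I w ×ˢ (if w.IsReal then {0} else I w) with hF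
  have hcard : (F.card : ℝ) ≤ ∏ w, (7 * R w) ^ w.mult := by
    rw [hF, Fintype.card_piFinset]
    push_cast
    refine Finset.prod_le_prod (fun w _ => Nat.cast_nonneg _) fun w _ => ?_
    have h1 : ((I w).card : ℝ) ≤ 7 * R w := card_Icc_le (hR w)
    have h2 : 0 ≤ 7 * R w := by linarith [hR w]
    rw [Finset.card_product]
    unfold InfinitePlace.mult
    split_ifs with h
    · rw [Finset.card_singleton, mul_one, pow_one]
      exact h1
    · push_cast
      rw [pow_two]
      exact mul_le_mul h1 h1 (Nat.cast_nonneg _) h2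
  have hmaps : ∀ x ∈ {a : 𝓞 K | ∀ w : InfinitePlace K, w (a : K) ≤ R w},
      (fun w : InfinitePlace K => icode (w.embedding (x : K))) ∈ (F : Set _) := by
    intro x hx
    rw [Finset.mem_coe, hF, Fintype.mem_piFinset]
    intro w
    have h1 : ‖w.embedding (x : K)‖ ≤ R w := by
      rw [InfinitePlace.norm_embedding_eq]
      exact hx w
    rw [Finset.mem_product]
    refine ⟨mem_Icc_of_abs ((Complex.abs_re_le_norm _).trans h1), ?_⟩
    split_ifs with hw
    · have h2 : starRingEnd ℂ (w.embedding (x : K)) = w.embedding (x : K) := by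
        have := RingHom.congr_fun (InfinitePlace.isReal_iff.1 hw) (x : K)
        rwa [ComplexEmbedding.conjugate_coe_eq] at this
      have h3 : (w.embedding (x : K)).im = 0 := Complex.conj_eq_iff_im.1 h2
      rw [Finset.mem_singleton]
      change ⌊2 * (w.embedding (x : K)).im⌋ = 0
      rw [h3, mul_zero, Int.floor_zero]
    · exact mem_Icc_of_abs ((Complex.abs_im_le_norm _).trans h1)
  have hinj : Set.InjOn (fun (x : 𝓞 K) (w : InfinitePlace K) => icode (w.embedding (x : K)))
      {a : 𝓞 K | ∀ w : InfinitePlace K, w (a : K) ≤ R w} := by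
    intro a _ b _ hab
    by_contra hne
    have hsub : a - b ≠ 0 := sub_ne_zero.2 hne
    have h1 : ∀ w : InfinitePlace K, w ((a - b : 𝓞 K) : K) < 1 := by
      intro w
      have h2 := norm_lt_of_icode (congrFun hab w)
      rw [← map_sub, InfinitePlace.norm_embedding_eq] at h2
      exact h2
    obtain ⟨w⟩ := (inferInstance : Nonempty (InfinitePlace K))
    have h5 := InfinitePlace.one_le_of_lt_one (w := w) hsub fun z _ => h1 z
    exact absurd (h1 w) (not_lt.2 h5)
  refine ⟨Set.Finite.of_injOn hmaps hinj F.finite_toSet, ?_⟩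
  have h1 : {a : 𝓞 K | ∀ w : InfinitePlace K, w (a : K) ≤ R w}.ncard ≤ F.card := by
    rw [← Set.ncard_coe_finset]
    exact Set.ncard_le_ncard_of_injOn _ hmaps hinj F.finite_toSet
  exact (Nat.cast_le.2 h1).trans hcard

private theorem one_add_pow_le (N : ℕ) (hN : 0 < N) (η : ℝ) (hη : 0 < η) (u : ℝ) (hu : 0 ≤ u) :
    (1 + u) ^ N ≤ (1 + N / η) ^ N * Real.exp (η * u) := by
  have hN0 : (0 : ℝ) < N := Nat.cast_pos.2 hN
  have h1 : 1 + u ≤ (1 + N / η) * Real.exp (η / N * u) := by
    have h2 := Real.add_one_le_exp (η / N * u)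
    have h3 : 0 < 1 + N / η := by positivity
    have h4 : (1 + N / η) * (η / N * u + 1) = 1 + u + (η / N * u + N / η) := by
      field_simp
      ring
    have h5 : 0 ≤ η / N * u + N / η := by positivity
    calc 1 + u ≤ (1 + N / η) * (η / N * u + 1) := by rw [h4]; linarith
      _ ≤ _ := mul_le_mul_of_nonneg_left h2 h3.le
  calc (1 + u) ^ N ≤ ((1 + N / η) * Real.exp (η / N * u)) ^ N :=
        pow_le_pow_left₀ (by linarith) h1 _
    _ = (1 + N / η) ^ N * Real.exp (η * u) := by
        rw [mul_pow, ← Real.exp_nat_mul]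
        congr 2
        field_simp

private theorem card_places_le (K : Type) [Field K] [NumberField K] :
    Fintype.card (InfinitePlace K) ≤ finrank ℚ K := by
  rw [← InfinitePlace.sum_mult_eq, ← Finset.card_univ, Finset.card_eq_sum_ones]
  exact Finset.sum_le_sum fun w _ => InfinitePlace.mult_pos

/-- the integers of bounded height of a number field -/
theorem card_int_le (N : ℕ) (hN : 0 < N) (η : ℝ) (hη : 0 < η) : ∃ C : ℝ, 1 ≤ C ∧
    ∀ (K : Type) [Field K] [NumberField K], finrank ℚ K = N → ∀ T : ℝ, 0 ≤ T →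
      {x : K | IsIntegral ℤ x ∧ SST.ht K x ≤ T}.Finite ∧
      ({x : K | IsIntegral ℤ x ∧ SST.ht K x ≤ T}.ncard : ℝ) ≤
        C * Real.exp ((1 + η) * N * T) := by
  classical
  have hN0 : (0 : ℝ) < N := Nat.cast_pos.2 hN
  have hC1 : (1 : ℝ) ≤ 7 * Real.exp 1 := by
    have := Real.one_le_exp (zero_le_one' ℝ)
    linarith
  have hC2 : (1 : ℝ) ≤ 1 + N / η := by
    have : (0 : ℝ) ≤ N / η := by positivity
    linarith
  refine ⟨(1 + N / η) ^ N * (7 * Real.exp 1) ^ N, one_le_mul_of_one_le_of_one_le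
    (one_le_pow₀ hC2) (one_le_pow₀ hC1), fun K _ _ hK T hT => ?_⟩
  set X : Set (𝓞 K) := {a : 𝓞 K | SST.ht K (a : K) ≤ T} with hX
  set lv : 𝓞 K → InfinitePlace K → ℕ := fun a w => ⌊Real.log (max 1 (w (a : K)))⌋₊ with hlv
  have hNT : 0 ≤ N * T := by positivity
  -- the product of the infinite parts
  have hprod : ∀ a ∈ X, ∏ w : InfinitePlace K, (max 1 (w (a : K))) ^ w.mult ≤
      Real.exp (N * T) := by
    intro a ha
    obtain ⟨h0, h1⟩ := RefW.denIdeal_norm_le (a : K)
    have h2 : (1 : ℝ) ≤ Ideal.absNorm (RefW.denIdealOf (a : K)) := by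
      have : Ideal.absNorm (RefW.denIdealOf (a : K)) ≠ 0 := by
        rw [Ne, Ideal.absNorm_eq_zero_iff]
        exact h0
      exact_mod_cast Nat.one_le_iff_ne_zero.2 this
    have h3 : 0 ≤ ∏ σ : K →+* ℂ, max 1 ‖σ (a : K)‖ :=
      Finset.prod_nonneg fun σ _ => le_trans zero_le_one (le_max_left _ _)
    have h4 : ∏ σ : K →+* ℂ, max 1 ‖σ (a : K)‖ ≤ Height.mulHeight₁ (a : K) := by
      refine le_trans ?_ h1
      exact le_mul_of_one_le_left h3 h2
    have h5 : Height.mulHeight₁ (a : K) = Real.exp (N * SST.ht K (a : K)) := by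
      have h6 : 0 < Height.mulHeight₁ (a : K) := lt_of_lt_of_le one_pos (Height.one_le_mulHeight₁ _)
      rw [SST.ht, hK, mul_div_cancel₀ _ hN0.ne', Height.logHeight₁, Real.exp_log h6]
    have h6 := RefW.denIdeal_prod_infinite K (fun w => max 1 (w (a : K)))
    simp only [InfinitePlace.apply] at h6
    rw [h6]
    refine h4.trans ?_
    rw [h5]
    exact Real.exp_le_exp.2 (mul_le_mul_of_nonneg_left ha hN0.le)
  have hlev : ∀ a : 𝓞 K, ∀ w : InfinitePlace K,
      Real.exp (lv a w) ≤ max 1 (w (a : K)) ∧ w (a : K) ≤ Real.exp (lv a w + 1) := by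
    intro a w
    have h0 : (0 : ℝ) < max 1 (w (a : K)) := lt_of_lt_of_le one_pos (le_max_left _ _)
    have h1 : 0 ≤ Real.log (max 1 (w (a : K))) := Real.log_nonneg (le_max_left _ _)
    have h2 := Nat.floor_le h1
    have h3 := Nat.lt_floor_add_one (Real.log (max 1 (w (a : K))))
    constructor
    · rw [← Real.le_log_iff_exp_le h0]
      exact h2
    · have h4 := (Real.log_lt_iff_lt_exp h0).1 h3
      exact (le_max_right _ _).trans h4.le
  set S : Set (InfinitePlace K → ℕ) := {s | (∀ w, s w ∈ Finset.range (⌊(N : ℝ) * T⌋₊ + 1)) ∧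
    ∏ w, (Real.exp (s w)) ^ w.mult ≤ Real.exp (N * T)} with hS
  set B : Finset (InfinitePlace K → ℕ) :=
    Fintype.piFinset fun _ => Finset.range (⌊(N : ℝ) * T⌋₊ + 1) with hB
  have hSB : S ⊆ (B : Set _) := by
    rintro s ⟨hs, -⟩
    rw [Finset.mem_coe, hB, Fintype.mem_piFinset]
    exact hs
  have hSfin : S.Finite := B.finite_toSet.subset hSB
  have hScard : (S.ncard : ℝ) ≤ (1 + N * T) ^ N := by
    have h1 : S.ncard ≤ B.card := by
      rw [← Set.ncard_coe_finset]
      exact Set.ncard_le_ncard hSB B.finite_toSet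
    have h2 : B.card = (⌊(N : ℝ) * T⌋₊ + 1) ^ Fintype.card (InfinitePlace K) := by
      rw [hB, Fintype.card_piFinset, Finset.prod_const, Finset.card_range, Finset.card_univ]
    have h3 : B.card ≤ (⌊(N : ℝ) * T⌋₊ + 1) ^ N := by
      rw [h2]
      refine Nat.pow_le_pow_right (Nat.succ_pos _) ?_
      rw [← hK]
      exact card_places_le K
    calc (S.ncard : ℝ) ≤ ((⌊(N : ℝ) * T⌋₊ + 1 : ℕ) : ℝ) ^ N := by exact_mod_cast h1.trans h3
      _ ≤ (1 + N * T) ^ N := by
          refine pow_le_pow_left₀ (Nat.cast_nonneg _) ?_ _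
          push_cast
          linarith [Nat.floor_le hNT]
  have hmain := AA.UpperAux.ncard_le_of_fiber X lv S hSfin ?_
    ((7 * Real.exp 1) ^ N * Real.exp (N * T)) ?_
  · have hXK : {x : K | IsIntegral ℤ x ∧ SST.ht K x ≤ T} = (fun a : 𝓞 K => (a : K)) '' X := by
      ext x
      constructor
      · rintro ⟨h1, h2⟩
        exact ⟨⟨x, h1⟩, h2, rfl⟩
      · rintro ⟨a, ha, rfl⟩
        exact ⟨a.2, ha⟩
    rw [hXK]
    refine ⟨hmain.1.image _, ?_⟩
    have h1 : (((fun a : 𝓞 K => (a : K)) '' X).ncard : ℝ) ≤ X.ncard :=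
      Nat.cast_le.2 (Set.ncard_image_le hmain.1)
    have h2 := one_add_pow_le N hN η hη (N * T) hNT
    calc _ ≤ (X.ncard : ℝ) := h1
      _ ≤ S.ncard * ((7 * Real.exp 1) ^ N * Real.exp (N * T)) := hmain.2
      _ ≤ ((1 + N / η) ^ N * Real.exp (η * (N * T))) *
          ((7 * Real.exp 1) ^ N * Real.exp (N * T)) :=
        mul_le_mul_of_nonneg_right (hScard.trans h2) (by positivity)
      _ = (1 + N / η) ^ N * (7 * Real.exp 1) ^ N *
          (Real.exp (η * (N * T)) * Real.exp (N * T)) := by ring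
      _ = _ := by
        rw [← Real.exp_add]
        congr 2
        ring
  · intro a ha
    have h1 : ∏ w, (Real.exp (lv a w)) ^ w.mult ≤ Real.exp (N * T) := by
      refine le_trans ?_ (hprod a ha)
      exact Finset.prod_le_prod (fun w _ => by positivity) fun w _ =>
        pow_le_pow_left₀ (Real.exp_pos _).le (hlev a w).1 _
    refine ⟨fun w => ?_, h1⟩
    rw [Finset.mem_range, Nat.lt_succ_iff]
    have h2 : Real.exp (lv a w) ≤ Real.exp (N * T) := by
      have h3 : Real.exp (lv a w) ≤ (Real.exp (lv a w)) ^ w.mult :=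
        le_self_pow₀ (Real.one_le_exp (Nat.cast_nonneg _)) InfinitePlace.mult_ne_zero
      refine h3.trans (le_trans ?_ h1)
      rw [← Finset.mul_prod_erase Finset.univ (fun w => (Real.exp (lv a w)) ^ w.mult)
        (Finset.mem_univ w)]
      refine le_mul_of_one_le_right (by positivity) ?_
      calc (1 : ℝ) = ∏ _v ∈ Finset.univ.erase w, (1 : ℝ) := by rw [Finset.prod_const_one]
        _ ≤ _ := Finset.prod_le_prod (fun _ _ => zero_le_one) fun v _ =>
          one_le_pow₀ (Real.one_le_exp (Nat.cast_nonneg _))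
    exact Nat.le_floor (Real.exp_le_exp.1 h2)
  · intro s hs
    have h1 : X ∩ lv ⁻¹' {s} ⊆
        {a : 𝓞 K | ∀ w : InfinitePlace K, w (a : K) ≤ Real.exp (s w + 1)} := by
      rintro a ⟨-, ha⟩ w
      have ha' : lv a = s := ha
      rw [← ha']
      exact (hlev a w).2
    obtain ⟨h2, h3⟩ := card_small2_le K (fun w => Real.exp (s w + 1))
      (fun w => Real.one_le_exp (by positivity))
    refine ⟨h2.subset h1, ?_⟩
    refine (Nat.cast_le.2 (Set.ncard_le_ncard h1 h2)).trans (h3.trans ?_)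
    have h4 : ∏ w : InfinitePlace K, (7 * Real.exp (s w + 1)) ^ w.mult =
        (7 * Real.exp 1) ^ N * ∏ w : InfinitePlace K, (Real.exp (s w)) ^ w.mult := by
      have h5 : ∀ w : InfinitePlace K, (7 * Real.exp (s w + 1)) ^ w.mult =
          (7 * Real.exp 1) ^ w.mult * (Real.exp (s w)) ^ w.mult := by
        intro w
        rw [← mul_pow, Real.exp_add]
        ring
      rw [Finset.prod_congr rfl fun w _ => h5 w, Finset.prod_mul_distrib,
        Finset.prod_pow_eq_pow_sum, InfinitePlace.sum_mult_eq, hK]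
    rw [h4]
    exact mul_le_mul_of_nonneg_left hs.2 (by positivity)

end Pool.Agent.HD
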