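import Pool.Agent.HD.Cells
import Pool.Agent.HD.IntCells
import Pool.Agent.HD.HtExt
import Pool.Agent.HD.FieldCount
import Pool.Agent.AA.Upper
import Pool.Agent.AA.Tower

/-!
# The upper bound for the number of points with a small discriminant
-/

set_option autoImplicit false

open Polynomial NumberField IntermediateField Module

namespace Pool.Agent.HD

/-- the exponent in the bound for the number of extensions of degree `≤ ν` of a number field of
degree `d` -/
noncomputable def ex (d ν : ℕ) : ℝ :=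
  min (((ν : ℝ) + 2) / 4) (Nat.clog 2 (d * ν) * (Nat.clog 2 (d * ν) + 2))

theorem ex_nonneg (d ν : ℕ) : 0 ≤ ex d ν := le_min (by positivity) (by positivity)

/-- the points of a curve over a given `x` -/
theorem card_fibre_le {k : Type} [Field k] [NumberField k] (G : (𝓞 k)[X][X]) (hG : G.Monic)
    (x : AlgebraicClosure k) :
    {y | (G.map (mapRingHom (algebraMap (𝓞 k) (AlgebraicClosure k)))).evalEval x y = 0}.Finite ∧
    {y | (G.map (mapRingHom (algebraMap (𝓞 k) (AlgebraicClosure k)))).evalEval x y = 0}.ncard ≤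
      G.natDegree := by
  classical
  set H : (AlgebraicClosure k)[X] :=
    ((G.map (mapRingHom (algebraMap (𝓞 k) (AlgebraicClosure k)))).map (evalRingHom x)) with hH
  have hHm : H.Monic := (hG.map _).map _
  have hHd : H.natDegree = G.natDegree := by
    rw [hH, (hG.map _).natDegree_map, hG.natDegree_map]
  have h1 : {y | (G.map (mapRingHom (algebraMap (𝓞 k) (AlgebraicClosure k)))).evalEval x y = 0} =
      (H.roots.toFinset : Set (AlgebraicClosure k)) := by
    ext y
    rw [Finset.mem_coe, Multiset.mem_toFinset, mem_roots hHm.ne_zero, IsRoot.def, hH,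
      Set.mem_ofPred_eq, map_evalRingHom_eval]
  rw [h1]
  refine ⟨Finset.finite_toSet _, ?_⟩
  rw [Set.ncard_coe_finset]
  exact (Multiset.toFinset_card_le _).trans ((card_roots' H).trans_eq hHd)

private theorem exists_emb (k : Type) [Field k] [NumberField k] :
    Nonempty (AlgebraicClosure k →+* ℂ) := by
  have : Algebra.IsAlgebraic ℚ (AlgebraicClosure k) :=
    Algebra.IsAlgebraic.trans ℚ k (AlgebraicClosure k)
  exact ⟨(IsAlgClosed.lift (R := ℚ) (S := AlgebraicClosure k) (M := ℂ)).toRingHom⟩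

/-- the number of extensions of `k` of degree at most `ν` -/
theorem fields_le (k : Type) [Field k] [NumberField k] (ν : ℕ) : ∃ C : ℝ, 1 ≤ C ∧
    ∀ n, 0 < n → n ≤ ν → ∀ Y : ℝ, 1 ≤ Y →
      {F : IntermediateField k (AlgebraicClosure k) | finrank k F = n ∧
        ∃ _ : NumberField F, |(discr F : ℝ)| ≤ Y}.Finite ∧
      ({F : IntermediateField k (AlgebraicClosure k) | finrank k F = n ∧
        ∃ _ : NumberField F, |(discr F : ℝ)| ≤ Y}.ncard : ℝ) ≤ C * Y ^ ex (finrank ℚ k) ν := by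
  classical
  set Ω := AlgebraicClosure k with hΩ
  obtain ⟨ι⟩ := exists_emb k
  have h1 : ∀ n : ℕ, ∃ C : ℝ, 1 ≤ C ∧ (0 < n → n ≤ ν → ∀ Y : ℝ, 1 ≤ Y →
      {F : IntermediateField k Ω | finrank k F = n ∧
        ∃ _ : NumberField F, |(discr F : ℝ)| ≤ Y}.Finite ∧
      ({F : IntermediateField k Ω | finrank k F = n ∧
        ∃ _ : NumberField F, |(discr F : ℝ)| ≤ Y}.ncard : ℝ) ≤
        C * Y ^ ex (finrank ℚ k) ν) := by
    intro n
    rcases Nat.lt_or_ge n 2 with hn | hn
    · refine ⟨1, le_rfl, fun hn0 _ Y hY => ?_⟩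
      have hn1 : n = 1 := by omega
      have h2 : {F : IntermediateField k Ω | finrank k F = n ∧
          ∃ _ : NumberField F, |(discr F : ℝ)| ≤ Y} ⊆ {⊥} := by
        rintro F ⟨hF, -⟩
        rw [hn1] at hF
        exact IntermediateField.finrank_eq_one_iff.1 hF
      refine ⟨(Set.finite_singleton _).subset h2, ?_⟩
      have h3 := Set.ncard_le_ncard h2 (Set.finite_singleton _)
      rw [Set.ncard_singleton] at h3
      have h4 : 1 ≤ Y ^ ex (finrank ℚ k) ν := Real.one_le_rpow hY (ex_nonneg _ _)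
      rw [one_mul]
      exact (by exact_mod_cast h3 : _ ≤ (1 : ℝ)).trans h4
    · obtain ⟨C₁, hC₁, h₁⟩ := AA.field_count k Ω n hn
      by_cases hnν : n ≤ ν
      · have hd : 1 ≤ finrank ℚ k := finrank_pos
        have h2 : finrank ℚ k * n ≤ finrank ℚ k * ν := Nat.mul_le_mul_left _ hnν
        have h3 : 2 ≤ finrank ℚ k * ν := by nlinarith
        have h4 : 0 < Nat.clog 2 (finrank ℚ k * ν) := Nat.clog_pos one_lt_two h3
        obtain ⟨C₂, hC₂, h₂⟩ := field_count_log k Ω ι n _ h4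
          (h2.trans (Nat.le_pow_clog one_lt_two _))
        refine ⟨max C₁ C₂, le_max_of_le_left hC₁, fun _ _ Y hY => ⟨(h₁ Y hY).1, ?_⟩⟩
        have hY0 : 0 ≤ Y := by linarith
        rcases le_total (((ν : ℝ) + 2) / 4) ((Nat.clog 2 (finrank ℚ k * ν) : ℝ) *
          (Nat.clog 2 (finrank ℚ k * ν) + 2)) with h5 | h5
        · rw [ex, min_eq_left h5]
          refine (h₁ Y hY).2.trans ?_
          have h6 : Y ^ (((n : ℝ) + 2) / 4) ≤ Y ^ (((ν : ℝ) + 2) / 4) := by
            refine Real.rpow_le_rpow_of_exponent_le hY ?_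
            have : (n : ℝ) ≤ ν := Nat.cast_le.2 hnν
            linarith
          exact mul_le_mul (le_max_left _ _) h6 (by positivity) (by positivity)
        · rw [ex, min_eq_right h5]
          refine (h₂ Y hY).2.trans ?_
          have h6 : Y ^ (Nat.clog 2 (finrank ℚ k * ν) * (Nat.clog 2 (finrank ℚ k * ν) + 2)) =
              Y ^ ((Nat.clog 2 (finrank ℚ k * ν) : ℝ) *
                (Nat.clog 2 (finrank ℚ k * ν) + 2)) := by
            rw [← Real.rpow_natCast]
            push_cast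
            rfl
          rw [h6]
          exact mul_le_mul_of_nonneg_right (le_max_right _ _) (by positivity)
      · exact ⟨1, le_rfl, fun _ h => absurd h hnν⟩
  choose C hC h using h1
  refine ⟨∑ n ∈ Finset.range (ν + 1), C n, ?_, fun n hn0 hn Y hY => ⟨(h n hn0 hn Y hY).1, ?_⟩⟩
  · exact (hC 0).trans (Finset.single_le_sum (f := C) (fun i _ => by linarith [hC i])
      (Finset.mem_range.2 (Nat.succ_pos _)))
  · refine (h n hn0 hn Y hY).2.trans (mul_le_mul_of_nonneg_right ?_ (by positivity))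
    exact Finset.single_le_sum (f := C) (fun i _ => by linarith [hC i])
      (Finset.mem_range.2 (Nat.lt_succ_of_le hn))

/-- the algebraic numbers `x` (integral if `b`) of degree at most `ν` over `k` with
`d(x) ≤ A h(x) + B` and of height at most `T` -/
def badX (k : Type) [Field k] [NumberField k] (b : Prop) (A B : ℝ) (ν : ℕ) (T : ℝ) :
    Set (AlgebraicClosure k) :=
  {x | (b → IsIntegral ℤ x) ∧ finrank k (IntermediateField.adjoin k {x}) ≤ ν ∧
    AA.height x ≤ T ∧ AA.logDiscr x ≤ A * AA.height x + B}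

theorem badX_le (k : Type) [Field k] [NumberField k] (b : Prop) (κ : ℝ) (hκ : 0 ≤ κ)
    (hpt : ∀ N : ℕ, 0 < N → ∃ C : ℝ, 1 ≤ C ∧ ∀ (K : Type) [Field K] [NumberField K],
      finrank ℚ K = N → ∀ T : ℝ, 0 ≤ T →
      {x : K | (b → IsIntegral ℤ x) ∧ SST.ht K x ≤ T}.Finite ∧
      ({x : K | (b → IsIntegral ℤ x) ∧ SST.ht K x ≤ T}.ncard : ℝ) ≤ C * Real.exp (κ * N * T))
    (A B : ℝ) (hA : 0 ≤ A) (hB : 0 ≤ B) (ν : ℕ) : ∃ C : ℝ, 0 ≤ C ∧ ∀ T : ℝ, 0 ≤ T →
      (badX k b A B ν T).Finite ∧ ((badX k b A B ν T).ncard : ℝ) ≤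
        C * Real.exp ((A * ex (finrank ℚ k) ν + κ) * (finrank ℚ k * ν) * T) := by
  classical
  set Ω := AlgebraicClosure k with hΩ
  set N₀ : ℕ := finrank ℚ k * ν with hN₀
  obtain ⟨C₁, hC₁, hfield⟩ := fields_le k ν
  have h2 : ∀ N : ℕ, ∃ C : ℝ, 1 ≤ C ∧ (0 < N → ∀ (K : Type) [Field K] [NumberField K],
      finrank ℚ K = N → ∀ T : ℝ, 0 ≤ T →
      {x : K | (b → IsIntegral ℤ x) ∧ SST.ht K x ≤ T}.Finite ∧
      ({x : K | (b → IsIntegral ℤ x) ∧ SST.ht K x ≤ T}.ncard : ℝ) ≤
        C * Real.exp (κ * N * T)) := by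
    intro N
    by_cases hN : 0 < N
    · obtain ⟨C, hC, h⟩ := hpt N hN
      exact ⟨C, hC, fun _ => h⟩
    · exact ⟨1, le_rfl, fun h => absurd h hN⟩
  choose C₂ hC₂ hpts using h2
  set D : ℝ := ∑ n ∈ Finset.range (ν + 1), C₁ * C₂ (finrank ℚ k * n) with hD
  have hterm : ∀ n, 0 ≤ C₁ * C₂ (finrank ℚ k * n) := fun n =>
    mul_nonneg (by linarith) (by linarith [hC₂ (finrank ℚ k * n)])
  have hD0 : 0 ≤ D := Finset.sum_nonneg fun n _ => hterm n
  refine ⟨ν * D * Real.exp (B * ex (finrank ℚ k) ν * N₀), by positivity, fun T hT => ?_⟩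
  set V : Set Ω := badX k b A B ν T with hV
  set Y : ℝ := Real.exp (N₀ * (A * T + B)) with hY
  have hY1 : 1 ≤ Y := Real.one_le_exp (by positivity)
  -- the points of one degree
  have hVN : ∀ n, 0 < n → n ≤ ν →
      (V ∩ (fun x : Ω => finrank k (IntermediateField.adjoin k {x})) ⁻¹' {n}).Finite ∧
      ((V ∩ (fun x : Ω => finrank k (IntermediateField.adjoin k {x})) ⁻¹' {n}).ncard : ℝ) ≤
        D * (Y ^ ex (finrank ℚ k) ν * Real.exp (κ * N₀ * T)) := by
    intro n hn0 hn
    obtain ⟨hf1, hf2⟩ := hfield n hn0 hn Y hY1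
    set N : ℕ := finrank ℚ k * n with hNdef
    have hN0 : 0 < N := Nat.mul_pos finrank_pos hn0
    have hN : N ≤ N₀ := Nat.mul_le_mul_left _ hn
    have h3 := AA.UpperAux.ncard_le_of_fiber
      (V ∩ (fun x : Ω => finrank k (IntermediateField.adjoin k {x})) ⁻¹' {n})
      (fun x : Ω => IntermediateField.adjoin k {x}) _ hf1 ?_
      (C₂ N * Real.exp (κ * N * T)) ?_
    · refine ⟨h3.1, h3.2.trans ?_⟩
      have h4 : Real.exp (κ * N * T) ≤ Real.exp (κ * N₀ * T) := by
        apply Real.exp_le_exp.2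
        have : (N : ℝ) ≤ N₀ := Nat.cast_le.2 hN
        exact mul_le_mul_of_nonneg_right (mul_le_mul_of_nonneg_left this hκ) hT
      have h5 : C₁ * C₂ N ≤ D :=
        Finset.single_le_sum (f := fun n => C₁ * C₂ (finrank ℚ k * n))
          (fun i _ => hterm i) (Finset.mem_range.2 (Nat.lt_succ_of_le hn))
      have h6 : 0 ≤ C₂ N := by linarith [hC₂ N]
      have h7 : 0 ≤ C₁ := by linarith
      calc _ ≤ (C₁ * Y ^ ex (finrank ℚ k) ν) * (C₂ N * Real.exp (κ * N₀ * T)) := by
            refine mul_le_mul hf2 ?_ (by positivity) (by positivity)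
            exact mul_le_mul_of_nonneg_left h4 h6
        _ = (C₁ * C₂ N) * (Y ^ ex (finrank ℚ k) ν * Real.exp (κ * N₀ * T)) := by
            ring
        _ ≤ _ := mul_le_mul_of_nonneg_right h5 (by positivity)
    · rintro x ⟨⟨hx1, hx2, hx3, hx4⟩, hx5⟩
      have hx5' : finrank k (IntermediateField.adjoin k {x}) = n := hx5
      refine ⟨hx5', AA.instNumberFieldAdjoin k x, ?_⟩
      rw [AA.UpperAux.discr_eq, AA.UpperAux.finrank_eq _ n hx5', hY]
      apply Real.exp_le_exp.2
      have h4 : SST.logDisc (IntermediateField.adjoin k {x}) ≤ A * T + B :=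
        le_trans hx4 (add_le_add (mul_le_mul_of_nonneg_left hx3 hA) le_rfl)
      exact mul_le_mul (Nat.cast_le.2 hN) h4 (AA.UpperAux.logDisc_nonneg _) (Nat.cast_nonneg _)
    · rintro F ⟨hF1, hF2, hF3⟩
      obtain ⟨h4, h5⟩ := hpts N hN0 F (AA.UpperAux.finrank_eq _ n hF1) T hT
      have h6 : V ∩ (fun x : Ω => finrank k (IntermediateField.adjoin k {x})) ⁻¹' {n} ∩
          (fun x : Ω => IntermediateField.adjoin k {x}) ⁻¹' {F} ⊆ (fun y : F => (y : Ω)) ''
            {x : F | (b → IsIntegral ℤ x) ∧ SST.ht F x ≤ T} := by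
        rintro x ⟨⟨⟨hx1, hx2, hx3, hx4⟩, hx5⟩, hx6⟩
        have hx6' : IntermediateField.adjoin k {x} = F := hx6
        have hxF : x ∈ F := by
          rw [← hx6']
          exact IntermediateField.mem_adjoin_simple_self k x
        refine ⟨⟨x, hxF⟩, ⟨fun hb => ?_, ?_⟩, rfl⟩
        · have h7 := hx1 hb
          exact (isIntegral_algebraMap_iff (algebraMap F Ω).injective (A := F) (B := Ω)
            (x := ⟨x, hxF⟩)).1 h7
        · have h7 := height_eq_ht F ⟨x, hxF⟩
          rw [← h7]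
          exact hx3
      refine ⟨(h4.image _).subset h6, ?_⟩
      have h7 := (Set.ncard_le_ncard h6 (h4.image _)).trans (Set.ncard_image_le h4)
      exact (Nat.cast_le.2 h7).trans h5
  have h3 := AA.UpperAux.ncard_le_of_fiber V
    (fun x : Ω => finrank k (IntermediateField.adjoin k {x}))
    (Finset.Icc 1 ν : Finset ℕ) (Finset.finite_toSet _) ?_
    (D * (Y ^ ex (finrank ℚ k) ν * Real.exp (κ * N₀ * T))) ?_
  · refine ⟨h3.1, h3.2.trans_eq ?_⟩
    have h4 : Y ^ ex (finrank ℚ k) ν * Real.exp (κ * N₀ * T) =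
        Real.exp (B * ex (finrank ℚ k) ν * N₀) *
          Real.exp ((A * ex (finrank ℚ k) ν + κ) * (finrank ℚ k * ν) * T) := by
      rw [hY, ← Real.exp_mul, ← Real.exp_add, ← Real.exp_add, hN₀]
      congr 1
      push_cast
      ring
    rw [h4, Set.ncard_coe_finset, Nat.card_Icc, Nat.add_sub_cancel]
    ring
  · rintro x ⟨hx1, hx2, hx3, hx4⟩
    have : FiniteDimensional k (IntermediateField.adjoin k {x}) :=
      IntermediateField.adjoin.finiteDimensional (Algebra.IsIntegral.isIntegral x)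
    rw [Finset.mem_coe, Finset.mem_Icc]
    exact ⟨finrank_pos, hx2⟩
  · intro n hn
    rw [Finset.mem_coe, Finset.mem_Icc] at hn
    exact hVN n hn.1 hn.2

/-- the normalised discriminant grows in towers -/
theorem logDisc_le_of_algebra (L K : Type) [Field L] [NumberField L] [Field K] [NumberField K]
    [Algebra L K] : SST.logDisc L ≤ SST.logDisc K := by
  have h1 := AA.discr_pow_le L K
  have hL : 0 < |(discr L : ℝ)| := lt_of_lt_of_le one_pos (AA.UpperAux.one_le_discr L)
  have h2 := Real.log_le_log (pow_pos hL _) h1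
  rw [Real.log_pow] at h2
  have h3 : (finrank ℚ K : ℝ) = finrank ℚ L * finrank L K := by
    exact_mod_cast (finrank_mul_finrank ℚ L K).symm
  have h4 : (0 : ℝ) < finrank ℚ L := Nat.cast_pos.2 finrank_pos
  have h5 : (0 : ℝ) < finrank L K := Nat.cast_pos.2 finrank_pos
  rw [SST.logDisc, SST.logDisc, h3, div_le_div_iff₀ h4 (by positivity)]
  calc Real.log |(discr L : ℝ)| * (finrank ℚ L * finrank L K) =
        (finrank L K * Real.log |(discr L : ℝ)|) * finrank ℚ L := by ring
    _ ≤ _ := mul_le_mul_of_nonneg_right h2 h4.le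

theorem logDiscr_fst_le {k : Type} [Field k] [NumberField k]
    (P : AlgebraicClosure k × AlgebraicClosure k) : AA.logDiscr P.1 ≤ logDiscr P := by
  have hle : IntermediateField.adjoin k {P.1} ≤ IntermediateField.adjoin k {P.1, P.2} :=
    IntermediateField.adjoin.mono k _ _ (by simp)
  let : Algebra (IntermediateField.adjoin k {P.1}) (IntermediateField.adjoin k {P.1, P.2}) :=
    (IntermediateField.inclusion hle).toRingHom.toAlgebra
  exact logDisc_le_of_algebra _ _

/-- the upper bound for the number of points with a small discriminant -/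
theorem viol_le (k : Type) [Field k] [NumberField k] (G : (𝓞 k)[X][X]) (hG : G.Monic)
    (b : Prop) (κ : ℝ) (hκ : 0 ≤ κ)
    (hpt : ∀ N : ℕ, 0 < N → ∃ C : ℝ, 1 ≤ C ∧ ∀ (K : Type) [Field K] [NumberField K],
      finrank ℚ K = N → ∀ T : ℝ, 0 ≤ T →
      {x : K | (b → IsIntegral ℤ x) ∧ SST.ht K x ≤ T}.Finite ∧
      ({x : K | (b → IsIntegral ℤ x) ∧ SST.ht K x ≤ T}.ncard : ℝ) ≤ C * Real.exp (κ * N * T))
    (A B : ℝ) (hA : 0 ≤ A) (hB : 0 ≤ B) (ν : ℕ) : ∃ C : ℝ, ∀ T : ℝ, 0 ≤ T →
      {P ∈ Points k G ν T | (b → IsIntegral ℤ P.1) ∧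
        logDiscr P ≤ A * AA.height P.1 + B}.Finite ∧
      ({P ∈ Points k G ν T | (b → IsIntegral ℤ P.1) ∧
        logDiscr P ≤ A * AA.height P.1 + B}.ncard : ℝ) ≤
        C * Real.exp ((A * ex (finrank ℚ k) ν + κ) * (finrank ℚ k * ν) * T) := by
  classical
  obtain ⟨C, hC, h⟩ := badX_le k b κ hκ hpt A B hA hB ν
  refine ⟨C * G.natDegree, fun T hT => ?_⟩
  obtain ⟨h1, h2⟩ := h T hT
  have h3 := AA.UpperAux.ncard_le_of_fiber {P ∈ Points k G ν T | (b → IsIntegral ℤ P.1) ∧
    logDiscr P ≤ A * AA.height P.1 + B} Prod.fst (badX k b A B ν T) h1 ?_ (G.natDegree : ℝ) ?_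
  · refine ⟨h3.1, h3.2.trans ((mul_le_mul_of_nonneg_right h2 (Nat.cast_nonneg _)).trans_eq ?_)⟩
    ring
  · rintro P ⟨⟨hP1, hP2, hP3⟩, hP4, hP5⟩
    exact ⟨hP4, hP2, hP3, (logDiscr_fst_le P).trans hP5⟩
  · intro x _
    obtain ⟨h4, h5⟩ := card_fibre_le G hG x
    have h6 : {P ∈ Points k G ν T | (b → IsIntegral ℤ P.1) ∧
        logDiscr P ≤ A * AA.height P.1 + B} ∩ Prod.fst ⁻¹' {x} ⊆ (fun y => (x, y)) ''
        {y | (G.map (mapRingHom (algebraMap (𝓞 k) (AlgebraicClosure k)))).evalEval x y = 0} := by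
      rintro P ⟨⟨hP, -⟩, hPb⟩
      have hPb' : P.1 = x := hPb
      refine ⟨P.2, ?_, ?_⟩
      · have := hP.1
        rw [hPb'] at this
        exact this
      · rw [← hPb']
    refine ⟨(h4.image _).subset h6, ?_⟩
    exact Nat.cast_le.2 (((Set.ncard_le_ncard h6 (h4.image _)).trans
      (Set.ncard_image_le h4)).trans h5)

end Pool.Agent.HD
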