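import Pool.Agent.HD.Defs

/-!
# A point of the curve over `x`
-/

set_option autoImplicit false

open Polynomial NumberField IntermediateField Module

namespace Pool.Agent.HD

private theorem evalEval_eq {k : Type} [Field k] [NumberField k] (G : (𝓞 k)[X][X])
    (x y : AlgebraicClosure k) :
    (G.map (mapRingHom (algebraMap (𝓞 k) (AlgebraicClosure k)))).evalEval x y =
      (G.map (aeval (R := 𝓞 k) x : (𝓞 k)[X] →ₐ[𝓞 k] AlgebraicClosure k).toRingHom).eval y := by
  rw [← map_evalRingHom_eval, Polynomial.map_map]
  congr 2
  ext a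
  · simp
  · simp

/-- a point of the curve over `x` -/
theorem exists_point (k : Type) [Field k] [NumberField k] (G : (𝓞 k)[X][X]) (hG : G.Monic)
    (hG1 : G.natDegree ≠ 0) (x : AlgebraicClosure k) (m : ℕ)
    (hm : finrank k (IntermediateField.adjoin k {x}) = m) (T : ℝ) (hT : AA.height x ≤ T) :
    ∃ y : AlgebraicClosure k, (x, y) ∈ Points k G m T ∧
      finrank k (IntermediateField.adjoin k {x, y}) ≤ G.natDegree * m ∧
      (IsIntegral ℤ x → IsIntegral ℤ y) := by
  set φ : (𝓞 k)[X] →+* AlgebraicClosure k :=
    (aeval (R := 𝓞 k) x : (𝓞 k)[X] →ₐ[𝓞 k] AlgebraicClosure k).toRingHom with hφ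
  have hGm : (G.map φ).Monic := hG.map _
  have hGd : (G.map φ).natDegree = G.natDegree := hG.natDegree_map _
  obtain ⟨y, hy⟩ := IsAlgClosed.exists_root (G.map φ) (by
    rw [degree_eq_natDegree hGm.ne_zero, hGd]
    exact_mod_cast hG1)
  have hy0 : (G.map φ).eval y = 0 := hy
  refine ⟨y, ⟨?_, hm.le, hT⟩, ?_, ?_⟩
  · rw [evalEval_eq]
    exact hy0
  · -- the degree
    have hxi : IsIntegral k x := Algebra.IsIntegral.isIntegral x
    set L := IntermediateField.adjoin k {x} with hL
    have h1 : finrank L (IntermediateField.adjoin L {y}) ≤ G.natDegree := by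
      have hyi : IsIntegral L y := Algebra.IsIntegral.isIntegral y
      rw [IntermediateField.adjoin.finrank hyi]
      set ψ : (𝓞 k)[X] →+* L := (aeval (R := 𝓞 k) (AdjoinSimple.gen k x)).toRingHom with hψ
      have hGψ : (G.map ψ).Monic := hG.map _
      rw [← hG.natDegree_map ψ]
      refine natDegree_le_of_dvd (minpoly.dvd _ _ ?_) hGψ.ne_zero
      rw [aeval_def, ← eval_map, Polynomial.map_map]
      have h2 : (algebraMap L (AlgebraicClosure k)).comp ψ = φ := by
        ext a
        · simp only [hψ, hφ, AlgHom.toRingHom_eq_coe, RingHom.coe_comp, RingHom.coe_coe,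
            Function.comp_apply, aeval_C]
          rw [IsScalarTower.algebraMap_apply (𝓞 k) k L,
            IsScalarTower.algebraMap_apply (𝓞 k) k (AlgebraicClosure k),
            ← IsScalarTower.algebraMap_apply k L (AlgebraicClosure k)]
        · simp only [hψ, hφ, AlgHom.toRingHom_eq_coe, RingHom.coe_comp, RingHom.coe_coe,
            Function.comp_apply, aeval_X]
          exact AdjoinSimple.coe_gen k x
      rw [h2]
      exact hy0
    have h2 : finrank k (IntermediateField.adjoin k {x, y}) =
        finrank k L * finrank L (IntermediateField.adjoin L {y}) := by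
      rw [finrank_mul_finrank, ← IntermediateField.adjoin_simple_adjoin_simple]
      rfl
    rw [h2, hm, mul_comm]
    exact Nat.mul_le_mul_right _ h1
  · -- integrality
    intro hx
    have hφi : ∀ a : (𝓞 k)[X], φ a ∈ integralClosure ℤ (AlgebraicClosure k) := by
      intro a
      change IsIntegral ℤ (aeval x a)
      rw [aeval_eq_sum_range]
      refine IsIntegral.sum _ fun i _ => ?_
      rw [Algebra.smul_def]
      refine IsIntegral.mul ?_ (hx.pow i)
      exact (RingOfIntegers.isIntegral (a.coeff i)).algebraMap
    set φ' : (𝓞 k)[X] →+* integralClosure ℤ (AlgebraicClosure k) :=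
      φ.codRestrict (integralClosure ℤ (AlgebraicClosure k)).toSubring hφi with hφ'
    have h1 : IsIntegral (integralClosure ℤ (AlgebraicClosure k)) y := by
      refine ⟨G.map φ', hG.map _, ?_⟩
      rw [← eval_map, Polynomial.map_map]
      have h2 : (algebraMap (integralClosure ℤ (AlgebraicClosure k)) (AlgebraicClosure k)).comp
          φ' = φ := by
        ext a <;> rfl
      rw [h2]
      exact hy0
    exact isIntegral_trans (R := ℤ) (A := integralClosure ℤ (AlgebraicClosure k)) y h1

end Pool.Agent.HD
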