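import Pool.Agent.HD.Many
import Pool.Agent.HD.Lift
import Pool.Agent.HD.LowerProj

/-!
# The lower bound for the number of integral points
-/

set_option autoImplicit false

open Polynomial NumberField IntermediateField Module

namespace Pool.Agent.HD

/-- many integral points over the algebraic integers of degree `m` -/
theorem lower (k : Type) [Field k] [NumberField k] (G : (𝓞 k)[X][X]) (hG : G.Monic)
    (hG1 : G.natDegree ≠ 0) (m : ℕ) (hm : 0 < m) :
    ∃ c T₀ : ℝ, 0 < c ∧ ∀ T : ℝ, T₀ ≤ T →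
      ∃ S : Finset (AlgebraicClosure k × AlgebraicClosure k),
        c * Real.exp (finrank ℚ k * (m : ℝ) ^ 2 * T) ≤ (S.card : ℝ) ∧
        ∀ P ∈ S, P ∈ Points k G m T ∧ finrank k (IntermediateField.adjoin k {P.1}) = m ∧
          finrank k (IntermediateField.adjoin k {P.1, P.2}) ≤ G.natDegree * m ∧
          IsIntegral ℤ P.1 ∧ IsIntegral ℤ P.2 := by
  classical
  obtain ⟨c, T₀, hc, h⟩ := many_int k m hm
  refine ⟨c, T₀, hc, fun T hT => ?_⟩
  obtain ⟨S, hS1, hS2⟩ := h T hT
  have key : ∀ x : AlgebraicClosure k, x ∈ S → ∃ y : AlgebraicClosure k,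
      (x, y) ∈ Points k G m T ∧
        finrank k (IntermediateField.adjoin k {x, y}) ≤ G.natDegree * m ∧ IsIntegral ℤ y :=
    fun x hx => by
      obtain ⟨y, h1, h2, h3⟩ := exists_point k G hG hG1 x m (hS2 x hx).2.1 T (hS2 x hx).2.2
      exact ⟨y, h1, h2, h3 (hS2 x hx).1⟩
  choose! y hy1 hy2 hy3 using key
  have hinj : Function.Injective fun x : AlgebraicClosure k => (x, y x) := fun a b hab =>
    congrArg Prod.fst hab
  refine ⟨S.image fun x => (x, y x), ?_, ?_⟩
  · rw [Finset.card_image_of_injective _ hinj]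
    exact hS1
  · intro P hP
    obtain ⟨x, hx, rfl⟩ := Finset.mem_image.1 hP
    exact ⟨hy1 x hx, (hS2 x hx).2.1, hy2 x hx, (hS2 x hx).1, hy3 x hx⟩

/-- many points over the algebraic numbers of degree `m` -/
theorem lower_points (k : Type) [Field k] [NumberField k] (G : (𝓞 k)[X][X]) (hG : G.Monic)
    (hG1 : G.natDegree ≠ 0) (m : ℕ) (hm : 0 < m) :
    ∃ c T₀ : ℝ, 0 < c ∧ ∀ T : ℝ, T₀ ≤ T →
      ∃ S : Finset (AlgebraicClosure k × AlgebraicClosure k),
        c * Real.exp ((m + 1) * (finrank ℚ k * m) * T) ≤ (S.card : ℝ) ∧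
        ∀ P ∈ S, P ∈ Points k G m T ∧ finrank k (IntermediateField.adjoin k {P.1}) = m ∧
          finrank k (IntermediateField.adjoin k {P.1, P.2}) ≤ G.natDegree * m := by
  classical
  obtain ⟨c, B₀, hc, h⟩ := lower_all k m hm
  have hd : (0 : ℝ) < finrank ℚ k := Nat.cast_pos.2 finrank_pos
  have hm0 : (0 : ℝ) < m := Nat.cast_pos.2 hm
  have hdm : (0 : ℝ) < finrank ℚ k * m := mul_pos hd hm0
  refine ⟨c, Real.log (max B₀ 1) / (finrank ℚ k * m), hc, fun T hT => ?_⟩
  rw [div_le_iff₀ hdm] at hT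
  have hB : B₀ ≤ Real.exp (finrank ℚ k * m * T) := by
    refine (le_max_left B₀ 1).trans ?_
    rw [← Real.log_le_iff_le_exp (lt_of_lt_of_le one_pos (le_max_right _ _))]
    linarith
  obtain ⟨S, hS1, hS2⟩ := h _ hB
  have key : ∀ x : AlgebraicClosure k, x ∈ S → ∃ y : AlgebraicClosure k,
      (x, y) ∈ Points k G m T ∧
        finrank k (IntermediateField.adjoin k {x, y}) ≤ G.natDegree * m := by
    intro x hx
    have h1 := (hS2 x hx).2
    rw [AA.UpperAux.relHeight_eq, AA.UpperAux.finrank_eq _ m (hS2 x hx).1] at h1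
    push_cast at h1
    have h2 := le_of_mul_le_mul_left (Real.exp_le_exp.1 h1) hdm
    obtain ⟨y, h3, h4, -⟩ := exists_point k G hG hG1 x m (hS2 x hx).1 T h2
    exact ⟨y, h3, h4⟩
  choose! y hy1 hy2 using key
  have hinj : Function.Injective fun x : AlgebraicClosure k => (x, y x) := fun a b hab =>
    congrArg Prod.fst hab
  refine ⟨S.image fun x => (x, y x), ?_, ?_⟩
  · rw [Finset.card_image_of_injective _ hinj]
    refine le_trans (le_of_eq ?_) hS1
    rw [← Real.exp_nat_mul]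
    congr 2
    push_cast
    ring
  · intro P hP
    obtain ⟨x, hx, rfl⟩ := Finset.mem_image.1 hP
    exact ⟨hy1 x hx, (hS2 x hx).1, hy2 x hx⟩

end Pool.Agent.HD
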