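import Pool.Agent.AA.ProdF

/-!
# The number of points of bounded height in a number field, uniformly in the field

For `x ≠ y` in `K` of height at most `T` the product formula for `x - y` shows that
`dst (σ x) (σ y) ≥ exp (-2 T)` for an embedding `σ` of `K` in `ℂ`. Hence the cells of diameter
`< exp (-2 T)` of the projective line over `ℂ` which contain the `σ x` determine `x`;
for a real place one coordinate of the cell is enough.
-/

set_option autoImplicit false

open Polynomial NumberField IntermediateField Module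

namespace Pool.Agent.HD

/-- a coordinate of absolute value at most `1` -/
private noncomputable def cu (z : ℂ) : ℂ := open Classical in if ‖z‖ ≤ 1 then z else z⁻¹

/-- the cell of `z` -/
private noncomputable def code (M : ℝ) (z : ℂ) : Bool × ℤ × ℤ :=
  open Classical in (decide (‖z‖ ≤ 1), ⌊M * (cu z).re⌋, ⌊M * (cu z).im⌋)

private theorem norm_cu_le (z : ℂ) : ‖cu z‖ ≤ 1 := by
  unfold cu
  split_ifs with h
  · exact h
  · rw [norm_inv]
    exact inv_le_one_of_one_le₀ (not_le.1 h).le

private theorem dst_eq_cu {z w : ℂ} (h : ‖z‖ ≤ 1 ↔ ‖w‖ ≤ 1) : AA.dst z w = ‖cu z - cu w‖ := by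
  unfold cu AA.dst
  by_cases hz : ‖z‖ ≤ 1
  · rw [if_pos hz, if_pos (h.1 hz), max_eq_left hz, max_eq_left (h.1 hz), mul_one, div_one]
  · have hw : ¬ ‖w‖ ≤ 1 := fun hw => hz (h.2 hw)
    have hz1 := (not_le.1 hz).le
    have hw1 := (not_le.1 hw).le
    have hz0 : z ≠ 0 := by
      rw [← norm_pos_iff]
      linarith
    have hw0 : w ≠ 0 := by
      rw [← norm_pos_iff]
      linarith
    rw [if_neg hz, if_neg hw, max_eq_right hz1, max_eq_right hw1, inv_sub_inv hz0 hw0, norm_div,
      norm_mul, norm_sub_rev]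

private theorem dst_lt_of_code {M : ℝ} (hM : 0 < M) {z w : ℂ} (h : code M z = code M w) :
    AA.dst z w < 2 / M := by
  classical
  have h1 : decide (‖z‖ ≤ 1) = decide (‖w‖ ≤ 1) := congrArg Prod.fst h
  have h2 : ⌊M * (cu z).re⌋ = ⌊M * (cu w).re⌋ := congrArg (fun p => p.2.1) h
  have h3 : ⌊M * (cu z).im⌋ = ⌊M * (cu w).im⌋ := congrArg (fun p => p.2.2) h
  rw [dst_eq_cu (decide_eq_decide.1 h1)]
  have h4 := Int.abs_sub_lt_one_of_floor_eq_floor h2
  have h5 := Int.abs_sub_lt_one_of_floor_eq_floor h3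
  rw [← mul_sub, abs_mul, abs_of_pos hM, ← Complex.sub_re] at h4
  rw [← mul_sub, abs_mul, abs_of_pos hM, ← Complex.sub_im] at h5
  rw [lt_div_iff₀ hM]
  have h6 := Complex.norm_le_abs_re_add_abs_im (cu z - cu w)
  have h7 := mul_le_mul_of_nonneg_right h6 hM.le
  nlinarith

private theorem mul_mem_Ico {M : ℝ} (hM : 0 ≤ M) {a : ℝ} (ha : |a| ≤ 1) :
    ⌊M * a⌋ ∈ Finset.Icc (-⌈M⌉) ⌈M⌉ := by
  have h1 := abs_le.1 ha
  have h2 := Int.le_ceil M
  have h3 : -M ≤ M * a := by nlinarith
  have h4 : M * a ≤ M := by nlinarith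
  rw [Finset.mem_Icc, Int.le_floor]
  refine ⟨by push_cast; linarith, ?_⟩
  have h5 : ⌊M * a⌋ ≤ ⌊M⌋ := Int.floor_le_floor h4
  exact h5.trans (Int.floor_le_ceil M)

/-- complex conjugation does not change the distance -/
private theorem dst_conj (z w : ℂ) :
    AA.dst ((starRingEnd ℂ) z) ((starRingEnd ℂ) w) = AA.dst z w := by
  unfold AA.dst
  rw [← map_sub, RCLike.norm_conj, RCLike.norm_conj, RCLike.norm_conj]

/-- the points of bounded height of a number field -/
theorem card_height_le (N : ℕ) (hN : 0 < N) : ∃ C : ℝ, 1 ≤ C ∧ ∀ (K : Type) [Field K]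
    [NumberField K], finrank ℚ K = N → ∀ T : ℝ, 0 ≤ T →
      {x : K | SST.ht K x ≤ T}.Finite ∧
      ({x : K | SST.ht K x ≤ T}.ncard : ℝ) ≤ C * Real.exp (2 * N * T) := by
  classical
  refine ⟨20 ^ N, one_le_pow₀ (by norm_num), fun K _ _ hK T hT => ?_⟩
  set M : ℝ := 2 * Real.exp (2 * T) with hMdef
  have hM1 : 1 ≤ Real.exp (2 * T) := Real.one_le_exp (by linarith)
  have hM : 0 < M := by positivity
  have hM2 : 2 / M = Real.exp (-(2 * T)) := by
    rw [hMdef, Real.exp_neg]
    field_simp
  set I : Finset ℤ := Finset.Icc (-⌈M⌉) ⌈M⌉ with hI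
  set c : ℕ := I.card with hc
  have h0I : (0 : ℤ) ∈ I := by
    have h0 : (0 : ℤ) ≤ ⌈M⌉ := Int.ceil_nonneg hM.le
    rw [hI, Finset.mem_Icc]
    exact ⟨by linarith, h0⟩
  have hcpos : 0 < c := Finset.card_pos.2 ⟨0, h0I⟩
  set F : Finset (InfinitePlace K → Bool × ℤ × ℤ) :=
    Fintype.piFinset fun w => Finset.univ ×ˢ (I ×ˢ (if w.IsReal then {0} else I)) with hF
  have hcard : F.card ≤ (2 * c) ^ N := by
    rw [hF, Fintype.card_piFinset]
    calc ∏ w : InfinitePlace K, (Finset.univ ×ˢ (I ×ˢ (if w.IsReal then {0} else I)) :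
          Finset (Bool × ℤ × ℤ)).card
        ≤ ∏ w : InfinitePlace K, (2 * c) ^ w.mult := by
          refine Finset.prod_le_prod' fun w _ => ?_
          rw [Finset.card_product, Finset.card_product, Finset.card_univ, Fintype.card_bool]
          unfold InfinitePlace.mult
          split_ifs with h
          · rw [Finset.card_singleton, mul_one, pow_one]
          · rw [← hc, pow_two]
            nlinarith [Nat.zero_le (c * c)]
      _ = (2 * c) ^ N := by
          rw [Finset.prod_pow_eq_pow_sum, InfinitePlace.sum_mult_eq, hK]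
  have hc1 : (c : ℝ) ≤ 5 * M := by
    have h0 : (0 : ℤ) ≤ ⌈M⌉ := Int.ceil_nonneg hM.le
    have h1 : (c : ℤ) = 2 * ⌈M⌉ + 1 := by
      rw [hc, hI, Int.card_Icc]
      rw [Int.toNat_of_nonneg (by linarith)]
      ring
    have h2 : (c : ℝ) = 2 * (⌈M⌉ : ℝ) + 1 := by
      have : ((c : ℤ) : ℝ) = ((2 * ⌈M⌉ + 1 : ℤ) : ℝ) := by rw [h1]
      push_cast at this
      exact this
    have h3 := Int.ceil_lt_add_one M
    rw [h2]
    have h4 : 2 ≤ M := by rw [hMdef]; linarith
    linarith
  have hmaps : ∀ x ∈ {x : K | SST.ht K x ≤ T},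
      (fun w : InfinitePlace K => code M (w.embedding x)) ∈ (F : Set _) := by
    intro x _
    rw [Finset.mem_coe, hF, Fintype.mem_piFinset]
    intro w
    have h1 := norm_cu_le (w.embedding x)
    rw [Finset.mem_product, Finset.mem_product]
    refine ⟨Finset.mem_univ _, mul_mem_Ico hM.le ((Complex.abs_re_le_norm _).trans h1), ?_⟩
    split_ifs with hw
    · have h2 : starRingEnd ℂ (w.embedding x) = w.embedding x := by
        have := RingHom.congr_fun (InfinitePlace.isReal_iff.1 hw) x
        rwa [ComplexEmbedding.conjugate_coe_eq] at this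
      have h3 : (cu (w.embedding x)).im = 0 := by
        rw [← Complex.conj_eq_iff_im]
        unfold cu
        split_ifs
        · exact h2
        · rw [map_inv₀, h2]
      rw [Finset.mem_singleton]
      change ⌊M * (cu (w.embedding x)).im⌋ = 0
      rw [h3, mul_zero, Int.floor_zero]
    · exact mul_mem_Ico hM.le ((Complex.abs_im_le_norm _).trans h1)
  have hinj : Set.InjOn (fun (x : K) (w : InfinitePlace K) => code M (w.embedding x))
      {x : K | SST.ht K x ≤ T} := by
    intro x hx y hy hxy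
    by_contra hne
    have : ∀ t : Fin 0, Fact (Nat.Prime ((Fin.elim0 : Fin 0 → ℕ) t)) := fun t => t.elim0
    have h1 := AA.sum_dst_le K (r := 0) Fin.elim0 (fun t => t.elim0) x y hne
    rw [Fin.sum_univ_zero, add_zero] at h1
    have h2 : ∀ σ : K →+* ℂ, 2 * T < -Real.log (AA.dst (σ x) (σ y)) := by
      intro σ
      have h3 : AA.dst (σ x) (σ y) < Real.exp (-(2 * T)) := by
        rw [← hM2]
        have h4 := dst_lt_of_code hM (congrFun hxy (InfinitePlace.mk σ))
        rcases InfinitePlace.embedding_mk_eq σ with h5 | h5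
        · rw [h5] at h4
          exact h4
        · rw [h5, ComplexEmbedding.conjugate_coe_eq, ComplexEmbedding.conjugate_coe_eq,
            dst_conj] at h4
          exact h4
      have h4 : 0 < AA.dst (σ x) (σ y) := by
        refine div_pos ?_ (by positivity)
        rw [norm_pos_iff, sub_ne_zero]
        exact fun h => hne (σ.injective h)
      have h5 := (Real.log_lt_iff_lt_exp h4).2 h3
      linarith
    have h3 : ∑ _σ : K →+* ℂ, 2 * T < ∑ σ : K →+* ℂ, -Real.log (AA.dst (σ x) (σ y)) := by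
      refine Finset.sum_lt_sum_of_nonempty ?_ fun σ _ => h2 σ
      rw [Finset.univ_nonempty_iff, ← Fintype.card_pos_iff, Embeddings.card, hK]
      exact hN
    rw [Finset.sum_const, Finset.card_univ, Embeddings.card, nsmul_eq_mul] at h3
    have h4 : (finrank ℚ K : ℝ) * (SST.ht K x + SST.ht K y) ≤ finrank ℚ K * (2 * T) :=
      mul_le_mul_of_nonneg_left (by have := hx.out; have := hy.out; linarith) (Nat.cast_nonneg _)
    linarith
  refine ⟨Set.Finite.of_injOn hmaps hinj F.finite_toSet, ?_⟩
  have h1 : {x : K | SST.ht K x ≤ T}.ncard ≤ F.card := by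
    rw [← Set.ncard_coe_finset]
    exact Set.ncard_le_ncard_of_injOn _ hmaps hinj F.finite_toSet
  calc ({x : K | SST.ht K x ≤ T}.ncard : ℝ) ≤ (F.card : ℝ) := by exact_mod_cast h1
    _ ≤ (2 * (c : ℝ)) ^ N := by exact_mod_cast hcard
    _ ≤ (2 * (5 * M)) ^ N := by
        refine pow_le_pow_left₀ (by positivity) ?_ _
        linarith
    _ = 20 ^ N * Real.exp (2 * N * T) := by
        have h2 : 2 * (5 * M) = 20 * Real.exp (2 * T) := by
          rw [hMdef]
          ring
        rw [h2, mul_pow, ← Real.exp_nat_mul]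
        congr 2
        ring

end Pool.Agent.HD
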