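import Pool.Agent.AA.Defs
import Mathlib.Algebra.Polynomial.Bivariate

/-!
# Points on arbitrary curves over algebraic numbers of bounded degree: definitions

A curve over the number field `k` is given by a polynomial `G` in `𝓞 k [X] [Y]` which is monic
in `Y`. The height of a point `P = (x, y)` is the absolute logarithmic height of `x`.
-/

set_option autoImplicit false

open Polynomial NumberField IntermediateField Module

namespace Pool.Agent.HD

/-- the field `k(x, y)` is a number field -/
instance instNumberFieldAdjoinPair (k : Type) [Field k] [NumberField k]
    (x y : AlgebraicClosure k) : NumberField (IntermediateField.adjoin k {x, y}) :=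
  haveI : FiniteDimensional k (IntermediateField.adjoin k {x, y}) :=
    IntermediateField.finiteDimensional_adjoin
      fun z _ => (Algebra.IsIntegral.isIntegral z : IsIntegral k z)
  NumberField.of_module_finite k _

/-- The normalised logarithmic discriminant `d(P)` of the residue field `k(x, y)` of the point
`P = (x, y)`. -/
noncomputable def logDiscr {k : Type} [Field k] [NumberField k]
    (P : AlgebraicClosure k × AlgebraicClosure k) : ℝ :=
  SST.logDisc (IntermediateField.adjoin k {P.1, P.2})

/-- The points `P = (x, y)` of the curve `G = 0` with `[k(x) : k] ≤ ν` and of height `h(P) = h(x)`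
at most `T`. -/
def Points (k : Type) [Field k] [NumberField k] (G : (𝓞 k)[X][X]) (ν : ℕ) (T : ℝ) :
    Set (AlgebraicClosure k × AlgebraicClosure k) :=
  {P | (G.map (mapRingHom (algebraMap (𝓞 k) (AlgebraicClosure k)))).evalEval P.1 P.2 = 0 ∧
    finrank k (IntermediateField.adjoin k {P.1}) ≤ ν ∧ AA.height P.1 ≤ T}

end Pool.Agent.HD
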