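import Pool.Agent.HD.Defs
import Mathlib.RingTheory.Polynomial.Eisenstein.Basic
import Mathlib.RingTheory.Polynomial.GaussLemma

/-!
# Eisenstein polynomials over a number field

`X ^ m + π + 4 ∑ z i X ^ i` with `π ∈ P`, `π ∉ P ^ 2`, `P` a prime ideal over `2`.
-/

set_option autoImplicit false

open Polynomial NumberField IntermediateField Module

namespace Pool.Agent.HD

/-- `X ^ m + π + 4 ∑ z i X ^ i` -/
noncomputable def eis {k : Type} [Field k] [NumberField k] (π : 𝓞 k) {m : ℕ} (z : Fin m → 𝓞 k) :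
    (𝓞 k)[X] :=
  X ^ m + (C π + C (4 : 𝓞 k) * ∑ i : Fin m, C (z i) * X ^ (i : ℕ))

private theorem rest_degree {k : Type} [Field k] [NumberField k] (π : 𝓞 k) {m : ℕ} (hm : 0 < m)
    (z : Fin m → 𝓞 k) :
    (C π + C (4 : 𝓞 k) * ∑ i : Fin m, C (z i) * X ^ (i : ℕ)).degree < m := by
  refine lt_of_le_of_lt (degree_add_le _ _) (max_lt ?_ ?_)
  · exact lt_of_le_of_lt degree_C_le (by exact_mod_cast hm)
  · refine lt_of_le_of_lt (degree_mul_le _ _) ?_
    calc (C (4 : 𝓞 k)).degree + (∑ i : Fin m, C (z i) * X ^ (i : ℕ)).degree ≤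
        0 + (∑ i : Fin m, C (z i) * X ^ (i : ℕ)).degree := add_le_add_left degree_C_le _
      _ = (∑ i : Fin m, C (z i) * X ^ (i : ℕ)).degree := zero_add _
      _ < m := degree_sum_fin_lt _

theorem eis_monic {k : Type} [Field k] [NumberField k] (π : 𝓞 k) {m : ℕ} (hm : 0 < m)
    (z : Fin m → 𝓞 k) : (eis π z).Monic :=
  monic_X_pow_add (rest_degree π hm z)

theorem eis_natDegree {k : Type} [Field k] [NumberField k] (π : 𝓞 k) {m : ℕ} (hm : 0 < m)
    (z : Fin m → 𝓞 k) : (eis π z).natDegree = m := by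
  refine natDegree_eq_of_degree_eq_some ?_
  rw [eis, degree_add_eq_left_of_degree_lt, degree_X_pow]
  rw [degree_X_pow]
  exact rest_degree π hm z

theorem eis_coeff {k : Type} [Field k] [NumberField k] (π : 𝓞 k) {m : ℕ}
    (z : Fin m → 𝓞 k) (i : Fin m) :
    (eis π z).coeff i = (C π).coeff (i : ℕ) + 4 * z i := by
  have h1 : (∑ j : Fin m, C (z j) * X ^ (j : ℕ)).coeff (i : ℕ) = (z i) := by
    rw [finsetSum_coeff, Finset.sum_eq_single i]
    · rw [coeff_C_mul, coeff_X_pow, if_pos rfl, mul_one]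
    · intro j _ hj
      rw [coeff_C_mul, coeff_X_pow, if_neg (fun h => hj (Fin.ext h.symm)), mul_zero]
    · exact fun h => absurd (Finset.mem_univ i) h
  rw [eis, coeff_add, coeff_add, coeff_X_pow, if_neg i.2.ne, coeff_C_mul, zero_add, h1]

theorem eis_injective {k : Type} [Field k] [NumberField k] (π : 𝓞 k) {m : ℕ} :
    Function.Injective (eis π : (Fin m → 𝓞 k) → (𝓞 k)[X]) := by
  intro z z' h
  funext i
  have h1 := congrArg (fun f => f.coeff (i : ℕ)) h
  simp only [eis_coeff] at h1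
  have h4 : (4 : 𝓞 k) ≠ 0 := by
    have : ((4 : ℕ) : 𝓞 k) ≠ 0 := Nat.cast_ne_zero.2 (by norm_num)
    exact_mod_cast this
  exact mul_left_cancel₀ h4 (add_left_cancel h1)

private theorem two_not_unit (k : Type) [Field k] [NumberField k] : ¬ IsUnit (2 : 𝓞 k) := by
  intro h
  have h1 := h.map (Algebra.norm ℤ)
  have h2 : Algebra.norm ℤ (2 : 𝓞 k) = 2 ^ finrank ℤ (𝓞 k) := by
    have h3 := Algebra.norm_algebraMap (S := 𝓞 k) (2 : ℤ)
    rwa [map_ofNat] at h3
  rw [h2, RingOfIntegers.rank, isUnit_pow_iff finrank_pos.ne'] at h1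
  have h3 := Int.isUnit_iff.1 h1
  omega

/-- Eisenstein polynomials over `k` -/
theorem exists_eisenstein (k : Type) [Field k] [NumberField k] : ∃ π : 𝓞 k,
    ∀ (m : ℕ), 0 < m → ∀ z : Fin m → 𝓞 k, Irreducible ((eis π z).map (algebraMap (𝓞 k) k)) := by
  obtain ⟨P, hPmax, hP⟩ := Ideal.exists_le_maximal (Ideal.span {(2 : 𝓞 k)})
    (fun h => two_not_unit k (Ideal.span_singleton_eq_top.1 h))
  have h2P : (2 : 𝓞 k) ∈ P := hP (Ideal.mem_span_singleton_self _)
  have hP0 : P ≠ ⊥ := by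
    rintro rfl
    rw [Ideal.mem_bot] at h2P
    exact two_ne_zero h2P
  obtain ⟨π, hπ1, hπ2⟩ := Ideal.exists_mem_pow_notMem_pow_succ P hP0 hPmax.ne_top 1
  rw [pow_one] at hπ1
  have h4 : (4 : 𝓞 k) ∈ P ^ 2 := by
    have h5 : (4 : 𝓞 k) = 2 * 2 := by norm_num
    rw [h5, pow_two]
    exact Ideal.mul_mem_mul h2P h2P
  have hP2 : P ^ 2 ≤ P := Ideal.pow_le_self two_ne_zero
  refine ⟨π, fun m hm z => ?_⟩
  have hmon := eis_monic π hm z
  have hdeg := eis_natDegree π hm z
  have heis : (eis π z).IsEisensteinAt P := by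
    refine ⟨?_, ?_, ?_⟩
    · rw [hmon.leadingCoeff]
      exact fun h => hPmax.ne_top ((Ideal.eq_top_iff_one _).2 h)
    · intro i hi
      rw [hdeg] at hi
      have h5 := eis_coeff π z ⟨i, hi⟩
      rw [h5]
      refine P.add_mem ?_ (P.mul_mem_right _ (hP2 h4))
      rw [coeff_C]
      split_ifs
      · exact hπ1
      · exact P.zero_mem
    · have h5 := eis_coeff π z ⟨0, hm⟩
      rw [h5]
      intro h
      change (C π).coeff 0 + 4 * z ⟨0, hm⟩ ∈ P ^ 2 at h
      rw [coeff_C_zero] at h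
      exact hπ2 (((P ^ 2).add_mem_iff_left ((P ^ 2).mul_mem_right _ h4)).1 h)
  have hirr : Irreducible (eis π z) :=
    heis.irreducible hPmax.isPrime hmon.isPrimitive (by rw [hdeg]; exact hm)
  exact (hmon.irreducible_iff_irreducible_map_fraction_map (K := k)).1 hirr

end Pool.Agent.HD
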