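import Pool.Agent.H37.KrullTrdeg

/-!
# Mixed traces determine a point up to finitely many choices

For `N ≤ 2 ^ r` there are `r N` integral polynomials `f j i` in `r` variables, of degree at most
`r + 2`, such that the `r N` sums `∑ i', f j i (x (·, i'))` are algebraically independent functions
of the `r N` variables `x (j, i)`: at the point whose columns are distinct vertices of the cube the
Jacobian matrix is the identity. Hence every coordinate of a generic `x` is determined by these
sums up to finitely many choices, uniformly.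
-/

set_option autoImplicit false

open MvPolynomial

namespace Pool.Agent.HD

/-- the factor in the distinguished variable: it vanishes at `0` and `1`, and its derivative there
is `1` at `b` and `0` at the other point -/
noncomputable def fA {r : ℕ} (b : Fin 2) (j : Fin r) : MvPolynomial (Fin r) ℤ :=
  if b = 0 then X j * (1 - X j) ^ 2 else X j ^ 2 * (X j - 1)

/-- the factor in the other variables: it is `1` at `b` and `0` at the other point -/
noncomputable def fB {r : ℕ} (b : Fin 2) (j : Fin r) : MvPolynomial (Fin r) ℤ :=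
  if b = 0 then 1 - X j else X j

/-- the polynomials with gradient the `j`-th unit vector at `v` and `0` at the other vertices -/
noncomputable def fP {r : ℕ} (v : Fin r → Fin 2) (j : Fin r) : MvPolynomial (Fin r) ℤ :=
  fA (v j) j * ∏ l ∈ Finset.univ.erase j, fB (v l) l

/-- a vertex of the cube as an integral point -/
def vx {r : ℕ} (v : Fin r → Fin 2) (l : Fin r) : ℤ := if v l = 0 then 0 else 1

theorem eval_fA {r : ℕ} (b : Fin 2) (j : Fin r) (v : Fin r → Fin 2) :
    eval (vx v) (fA b j) = 0 := by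
  unfold fA vx
  split_ifs with h
  · by_cases h1 : v j = 0 <;> simp [h1]
  · by_cases h1 : v j = 0 <;> simp [h1]

theorem eval_fB {r : ℕ} (b : Fin 2) (j : Fin r) (v : Fin r → Fin 2) :
    eval (vx v) (fB b j) = if v j = b then 1 else 0 := by
  unfold fB vx
  have hb : b = 0 ∨ b = 1 := by omega
  have hv : v j = 0 ∨ v j = 1 := by omega
  rcases hb with rfl | rfl <;> rcases hv with h | h <;> simp [h]

theorem eval_pderiv_fA {r : ℕ} (b : Fin 2) (j l : Fin r) (v : Fin r → Fin 2) :
    eval (vx v) (pderiv l (fA b j)) = if l = j ∧ v j = b then 1 else 0 := by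
  have hb : b = 0 ∨ b = 1 := by omega
  have hv : v j = 0 ∨ v j = 1 := by omega
  by_cases hl : l = j
  · subst hl
    rcases hb with rfl | rfl <;> rcases hv with h | h <;> simp [fA, h, pderiv_X, vx]
  · rcases hb with rfl | rfl <;> rcases hv with h | h <;>
      simp [fA, h, pderiv_X, hl, Ne.symm hl]

theorem eval_pderiv_fP {r : ℕ} (v w : Fin r → Fin 2) (j l : Fin r) :
    eval (vx w) (pderiv l (fP v j)) = if l = j ∧ w = v then 1 else 0 := by
  unfold fP
  rw [pderiv_mul, map_add, map_mul, map_mul, eval_fA, zero_mul, add_zero, eval_pderiv_fA, map_prod]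
  simp only [eval_fB]
  rw [Finset.prod_ite_zero]
  simp only [Finset.prod_const_one, Finset.mem_erase, Finset.mem_univ, and_true]
  by_cases hl : l = j
  · subst hl
    by_cases hw : w = v
    · subst hw
      simp
    · rw [if_neg (c := l = l ∧ w = v) (fun h => hw h.2)]
      by_cases h1 : w l = v l
      · rw [if_neg (c := ∀ i, i ≠ l → w i = v i), mul_zero]
        intro h
        apply hw
        funext i
        by_cases hi : i = l
        · rw [hi, h1]
        · exact h i hi
      · rw [if_neg (c := l = l ∧ w l = v l) (fun h => h1 h.2), zero_mul]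
  · rw [if_neg (c := l = j ∧ w j = v j) (fun h => hl h.1),
      if_neg (c := l = j ∧ w = v) (fun h => hl h.1), zero_mul]

theorem norm_fP_le {r : ℕ} (v : Fin r → Fin 2) (j : Fin r) (x : Fin r → ℂ) (M : ℝ) (hM : 1 ≤ M)
    (hx : ∀ l, ‖x l‖ ≤ M) : ‖aeval x (fP v j)‖ ≤ 2 ^ (r + 1) * M ^ (r + 2) := by
  have hM0 : 0 ≤ M := by linarith
  have hA : ‖aeval x (fA (v j) j)‖ ≤ 4 * M ^ 3 := by
    have h0 := hx j
    have h1 : ‖1 - x j‖ ≤ 2 * M := by
      calc ‖1 - x j‖ ≤ ‖(1 : ℂ)‖ + ‖x j‖ := norm_sub_le _ _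
        _ ≤ 1 + M := by rw [norm_one]; linarith
        _ ≤ 2 * M := by linarith
    have h2 : ‖x j - 1‖ ≤ 2 * M := by rwa [norm_sub_rev]
    unfold fA
    split_ifs
    · rw [map_mul, map_pow, map_sub, map_one, aeval_X, norm_mul, norm_pow]
      calc ‖x j‖ * ‖1 - x j‖ ^ 2 ≤ M * (2 * M) ^ 2 := by gcongr
        _ = 4 * M ^ 3 := by ring
    · rw [map_mul, map_pow, map_sub, map_one, aeval_X, norm_mul, norm_pow]
      calc ‖x j‖ ^ 2 * ‖x j - 1‖ ≤ M ^ 2 * (2 * M) := by gcongr
        _ ≤ 4 * M ^ 3 := by nlinarith [pow_pos (show 0 < M by linarith) 3]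
  have hB : ∀ l, ‖aeval x (fB (v l) l)‖ ≤ 2 * M := by
    intro l
    have h0 := hx l
    unfold fB
    split_ifs
    · rw [map_sub, map_one, aeval_X]
      calc ‖1 - x l‖ ≤ ‖(1 : ℂ)‖ + ‖x l‖ := norm_sub_le _ _
        _ ≤ 1 + M := by rw [norm_one]; linarith
        _ ≤ 2 * M := by linarith
    · rw [aeval_X]
      linarith
  unfold fP
  rw [map_mul, map_prod, norm_mul, norm_prod]
  have h1 : ∏ l ∈ Finset.univ.erase j, ‖aeval x (fB (v l) l)‖ ≤ (2 * M) ^ (r - 1) := by
    calc ∏ l ∈ Finset.univ.erase j, ‖aeval x (fB (v l) l)‖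
        ≤ ∏ l ∈ Finset.univ.erase j, (2 * M) :=
          Finset.prod_le_prod (fun _ _ => norm_nonneg _) fun l _ => hB l
      _ = (2 * M) ^ (r - 1) := by
          rw [Finset.prod_const, Finset.card_erase_of_mem (Finset.mem_univ j), Finset.card_univ,
            Fintype.card_fin]
  have hr : 0 < r := j.pos
  calc ‖aeval x (fA (v j) j)‖ * ∏ l ∈ Finset.univ.erase j, ‖aeval x (fB (v l) l)‖
      ≤ (4 * M ^ 3) * (2 * M) ^ (r - 1) :=
        mul_le_mul hA h1 (Finset.prod_nonneg fun _ _ => norm_nonneg _) (by positivity)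
    _ = 2 ^ (r + 1) * M ^ (r + 2) := by
        obtain ⟨s, rfl⟩ := Nat.exists_eq_succ_of_ne_zero hr.ne'
        rw [Nat.succ_sub_one, mul_pow, Nat.succ_eq_add_one]
        ring

/-- the power sums in `r N` variables -/
noncomputable def gP {r N : ℕ} (v : Fin N → Fin r → Fin 2) (s : Fin r × Fin N) :
    MvPolynomial (Fin r × Fin N) ℂ :=
  ∑ i', rename (fun j' => (j', i')) (map (Int.castRingHom ℂ) (fP (v s.2) s.1))

theorem eval_gP {r N : ℕ} (v : Fin N → Fin r → Fin 2) (s : Fin r × Fin N)
    (x : Fin r × Fin N → ℂ) :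
    eval x (gP v s) = ∑ i', aeval (fun j' => x (j', i')) (fP (v s.2) s.1) := by
  unfold gP
  rw [map_sum]
  refine Finset.sum_congr rfl fun i' _ => ?_
  rw [eval_rename, eval_map, aeval_def]
  rfl

theorem pderiv_rename_ne {r N : ℕ} (i i' : Fin N) (hi : i ≠ i') (l : Fin r)
    (p : MvPolynomial (Fin r) ℂ) : pderiv (l, i) (rename (fun j' => (j', i')) p) = 0 := by
  classical
  apply pderiv_eq_zero_of_notMem_vars
  intro h
  have := vars_rename _ p h
  rw [Finset.mem_image] at this
  obtain ⟨a, -, ha⟩ := this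
  exact hi (Prod.ext_iff.1 ha).2.symm

theorem jac_gP {r N : ℕ} (v : Fin N → Fin r → Fin 2) (hv : Function.Injective v)
    (s t : Fin r × Fin N) :
    eval (fun u : Fin r × Fin N => ((vx (v u.2) u.1 : ℤ) : ℂ)) (pderiv t (gP v s)) =
      if s = t then 1 else 0 := by
  obtain ⟨l, i⟩ := t
  unfold gP
  rw [map_sum, map_sum, Finset.sum_eq_single i]
  · have hinj : Function.Injective (fun j' : Fin r => (j', i)) := fun a b h =>
      (Prod.ext_iff.1 h).1
    have h0 := pderiv_rename hinj l (map (Int.castRingHom ℂ) (fP (v s.2) s.1))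
    rw [h0, eval_rename, pderiv_map, eval_map]
    have h1 : eval₂ (Int.castRingHom ℂ) ((fun u : Fin r × Fin N => ((vx (v u.2) u.1 : ℤ) : ℂ)) ∘
        fun j' => (j', i)) (pderiv l (fP (v s.2) s.1)) =
        ((eval (vx (v i)) (pderiv l (fP (v s.2) s.1)) : ℤ) : ℂ) := by
      rw [← eq_intCast (Int.castRingHom ℂ), eval₂_comp]
      rfl
    rw [h1, eval_pderiv_fP]
    obtain ⟨j, i0⟩ := s
    by_cases h2 : l = j ∧ v i = v i0
    · rw [if_pos h2, if_pos]
      · simp
      · rw [h2.1, hv h2.2]
    · rw [if_neg h2, if_neg]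
      · simp
      · intro h3
        apply h2
        rw [Prod.mk.injEq] at h3
        rw [h3.1, h3.2]
        exact ⟨rfl, rfl⟩
  · intro i' _ hi'
    rw [pderiv_rename_ne i i' hi'.symm, map_zero]
  · simp

theorem algInd_gP {r N : ℕ} (v : Fin N → Fin r → Fin 2) (hv : Function.Injective v) :
    AlgebraicIndependent ℂ (fun i : Fin (Fintype.card (Fin r × Fin N)) =>
      gP v ((Fintype.equivFin (Fin r × Fin N)).symm i)) := by
  refine H37.algebraicIndependent_of_jacobian _ (Fintype.equivFin (Fin r × Fin N)).symm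
    (fun u : Fin r × Fin N => ((vx (v u.2) u.1 : ℤ) : ℂ)) ?_
  have : (Matrix.of fun i j : Fin (Fintype.card (Fin r × Fin N)) =>
      eval (fun u : Fin r × Fin N => ((vx (v u.2) u.1 : ℤ) : ℂ))
        (pderiv ((Fintype.equivFin (Fin r × Fin N)).symm j)
          (gP v ((Fintype.equivFin (Fin r × Fin N)).symm i)))) = 1 := by
    ext i j
    rw [Matrix.of_apply, jac_gP v hv, Matrix.one_apply]
    simp only [EmbeddingLike.apply_eq_iff_eq]
  rw [this, Matrix.det_one]
  exact one_ne_zero

theorem eval_aeval_aux {σ τ : Type} (x : σ → ℂ) (P : τ → MvPolynomial σ ℂ)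
    (R : MvPolynomial τ ℂ) : eval x (aeval P R) = eval (fun i => eval x (P i)) R := by
  induction R using MvPolynomial.induction_on with
  | C a => simp
  | add p q hp hq => rw [map_add, map_add, map_add, hp, hq]
  | mul_X p i hp => rw [map_mul, map_mul, map_mul, hp, aeval_X, eval_X]

/-- Every coordinate of a generic point is determined by the values of the sums up to finitely many
choices. -/
theorem elim_one {r N : ℕ} (v : Fin N → Fin r → Fin 2) (hv : Function.Injective v)
    (s : Fin r × Fin N) : ∃ (Z : MvPolynomial (Fin r × Fin N) ℂ) (M : ℕ), Z ≠ 0 ∧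
      ∀ t : Fin r × Fin N → ℂ, ∃ T : Finset ℂ, T.card ≤ M ∧ ∀ x : Fin r × Fin N → ℂ,
        eval x Z ≠ 0 → (∀ u, eval x (gP v u) = t u) → x s ∈ T := by
  classical
  set m := Fintype.card (Fin r × Fin N) with hm
  set e := Fintype.equivFin (Fin r × Fin N) with he
  set P : Fin m → MvPolynomial (Fin r × Fin N) ℂ := fun i => gP v (e.symm i) with hP
  have hind : AlgebraicIndependent ℂ P := algInd_gP v hv
  have htb : IsTranscendenceBasis ℂ P := by
    apply hind.isTranscendenceBasis_of_trdeg_le_of_finite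
    rw [MvPolynomial.trdeg_of_isDomain]
    simp [hm]
  have halg := htb.isAlgebraic
  obtain ⟨q, hq0, hq⟩ := halg.isAlgebraic (X s : MvPolynomial (Fin r × Fin N) ℂ)
  have hlift : ∀ l, ∃ R : MvPolynomial (Fin m) ℂ,
      aeval P R = ((q.coeff l : Algebra.adjoin ℂ (Set.range P)) :
        MvPolynomial (Fin r × Fin N) ℂ) := by
    intro l
    have h1 : ∀ z ∈ Algebra.adjoin ℂ (Set.range P),
        ∃ R : MvPolynomial (Fin m) ℂ, aeval P R = z := by
      intro z hz
      rw [Algebra.adjoin_range_eq_range_aeval] at hz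
      exact hz
    exact h1 _ (q.coeff l).2
  choose R hR using hlift
  refine ⟨(q.leadingCoeff : Algebra.adjoin ℂ (Set.range P)), q.natDegree, ?_, fun t => ?_⟩
  · intro h
    apply hq0
    rw [← Polynomial.leadingCoeff_eq_zero]
    exact Subtype.ext h
  -- the polynomial with root `x s`
  set Q : Polynomial ℂ := ∑ l ∈ Finset.range (q.natDegree + 1),
    Polynomial.C (eval (fun i => t (e.symm i)) (R l)) * Polynomial.X ^ l with hQ
  have hcoef : ∀ x : Fin r × Fin N → ℂ, (∀ u, eval x (gP v u) = t u) → ∀ l,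
      eval x ((q.coeff l : Algebra.adjoin ℂ (Set.range P)) : MvPolynomial (Fin r × Fin N) ℂ) =
        eval (fun i => t (e.symm i)) (R l) := by
    intro x hx l
    rw [← hR l]
    rw [eval_aeval_aux]
    have h1 : (fun i => eval x (P i)) = fun i => t (e.symm i) := funext fun i => hx _
    rw [h1]
  refine ⟨Q.roots.toFinset, ?_, fun x hx0 hx => ?_⟩
  · refine (Multiset.toFinset_card_le _).trans ((Polynomial.card_roots' Q).trans ?_)
    rw [hQ]
    refine Polynomial.natDegree_sum_le_of_forall_le _ _ fun l hl => ?_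
    refine (Polynomial.natDegree_C_mul_X_pow_le _ _).trans ?_
    rw [Finset.mem_range] at hl
    omega
  · have hQc : Q.coeff q.natDegree = eval x
        ((q.leadingCoeff : Algebra.adjoin ℂ (Set.range P)) :
          MvPolynomial (Fin r × Fin N) ℂ) := by
      rw [Polynomial.leadingCoeff, hcoef x hx, hQ, Polynomial.finsetSum_coeff]
      simp [Polynomial.coeff_C_mul, Polynomial.coeff_X_pow]
    have hQ0 : Q ≠ 0 := by
      intro h
      rw [h, Polynomial.coeff_zero] at hQc
      exact hx0 hQc.symm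
    rw [Multiset.mem_toFinset, Polynomial.mem_roots hQ0, Polynomial.IsRoot.def, hQ,
      Polynomial.eval_finsetSum]
    have h2 := congrArg (eval x) hq
    rw [Polynomial.aeval_eq_sum_range, map_sum, map_zero] at h2
    rw [← h2]
    refine Finset.sum_congr rfl fun l _ => ?_
    rw [Polynomial.eval_mul, Polynomial.eval_C, Polynomial.eval_pow, Polynomial.eval_X,
      Algebra.smul_def, map_mul, map_pow, eval_X]
    congr 1
    exact (hcoef x hx l).symm

end Pool.Agent.HD
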