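import Pool.Agent.HD.SmallBasis
import Pool.Agent.HD.Elim

/-!
# Small integers outside a fixed hypersurface
-/

set_option autoImplicit false

open MvPolynomial Module NumberField

namespace Pool.Agent.HD

theorem totalDegree_aeval_le {σ τ : Type} [Fintype σ] (f : σ → MvPolynomial τ ℂ)
    (hf : ∀ i, (f i).totalDegree ≤ 1) (P : MvPolynomial σ ℂ) :
    (aeval f P).totalDegree ≤ P.totalDegree := by
  rw [aeval_def, eval₂_eq']
  refine totalDegree_finsetSum_le fun e he => ?_
  refine (totalDegree_mul _ _).trans ?_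
  have h1 : (algebraMap ℂ (MvPolynomial τ ℂ) (coeff e P)).totalDegree = 0 := by
    rw [MvPolynomial.algebraMap_eq, totalDegree_C]
  rw [h1, zero_add]
  refine (totalDegree_finsetProd _ _).trans ?_
  have h2 : ∑ i, (f i ^ e i).totalDegree ≤ ∑ i, e i :=
    Finset.sum_le_sum fun i _ => (totalDegree_pow _ _).trans
      ((Nat.mul_le_mul_left _ (hf i)).trans (by rw [mul_one]))
  refine h2.trans ?_
  have h3 := le_totalDegree he
  rwa [Finsupp.sum_fintype _ _ (fun _ => rfl)] at h3

/-- a nonzero polynomial does not vanish at some small integral combination -/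
theorem exists_small_point {N r : ℕ} (A : Matrix (Fin N) (Fin N) ℂ) (hA : A.det ≠ 0)
    (W : MvPolynomial (Fin r × Fin N) ℂ) (hW : W ≠ 0) :
    ∃ c : Fin r × Fin N → ℕ, (∀ u, c u ≤ W.totalDegree) ∧
      eval (fun u : Fin r × Fin N => ∑ l, A u.2 l * (c (u.1, l) : ℂ)) W ≠ 0 := by
  classical
  set f : Fin r × Fin N → MvPolynomial (Fin r × Fin N) ℂ :=
    fun u => ∑ l, C (A u.2 l) * X (u.1, l) with hf
  have heval : ∀ y : Fin r × Fin N → ℂ,
      eval y (aeval f W) = eval (fun u : Fin r × Fin N => ∑ l, A u.2 l * y (u.1, l)) W := by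
    intro y
    rw [eval_aeval_aux]
    have h1 : (fun i => eval y (f i)) =
        fun u : Fin r × Fin N => ∑ l, A u.2 l * y (u.1, l) := by
      funext u
      simp [hf]
    rw [h1]
  have hne : aeval f W ≠ 0 := by
    intro h0
    apply hW
    apply MvPolynomial.funext
    intro x
    have h1 := heval fun u => (A⁻¹).mulVec (fun i => x (u.1, i)) u.2
    rw [h0, map_zero] at h1
    rw [map_zero, ← h1.symm]
    congr 2
    funext u
    have h2 : A.mulVec ((A⁻¹).mulVec fun i => x (u.1, i)) = fun i => x (u.1, i) := by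
      rw [Matrix.mulVec_mulVec, Matrix.mul_nonsing_inv _ (isUnit_iff_ne_zero.2 hA),
        Matrix.one_mulVec]
    exact (congrFun h2 u.2).symm
  have hdeg : (aeval f W).totalDegree ≤ W.totalDegree := by
    refine totalDegree_aeval_le f (fun u => ?_) W
    refine totalDegree_finsetSum_le fun l _ => ?_
    refine (totalDegree_mul _ _).trans ?_
    rw [totalDegree_C, totalDegree_X]
  by_contra hcon
  push Not at hcon
  apply hne
  refine eq_zero_of_eval_zero_at_prod_finset _
    (fun _ => (Finset.range (W.totalDegree + 1)).image fun c : ℕ => (c : ℂ)) (fun u => ?_)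
    fun x hx => ?_
  · rw [Finset.card_image_of_injective _ Nat.cast_injective, Finset.card_range]
    exact Nat.lt_succ_of_le ((degreeOf_le_totalDegree _ _).trans hdeg)
  · have h1 : ∀ u, ∃ c : ℕ, c ≤ W.totalDegree ∧ (c : ℂ) = x u := by
      intro u
      have h2 := hx u
      rw [Finset.mem_image] at h2
      obtain ⟨c, hc, hcx⟩ := h2
      exact ⟨c, Nat.lt_succ_iff.1 (Finset.mem_range.1 hc), hcx⟩
    choose c hc hcx using h1
    rw [heval, ← hcon c hc]
    simp only [hcx]

theorem det_ne_zero {K : Type} [Field K] [NumberField K] {N : ℕ} (hN : finrank ℚ K = N)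
    (e : Fin N ≃ (K →+* ℂ)) (w : Fin N → K) (hw : LinearIndependent ℚ w) :
    (Matrix.of fun i l => e i (w l)).det ≠ 0 := by
  classical
  have : Nonempty (Fin N) := by
    rw [← hN]
    exact ⟨⟨0, finrank_pos⟩⟩
  set b := basisOfLinearIndependentOfCardEqFinrank hw (by rw [Fintype.card_fin, hN]) with hb
  have hbw : ∀ l, b l = w l := fun l => by rw [hb, coe_basisOfLinearIndependentOfCardEqFinrank]
  set e' : Fin N ≃ (K →ₐ[ℚ] ℂ) := e.trans (RingHom.equivRatAlgHom K ℂ) with he'
  have h1 := Algebra.discr_eq_det_embeddingsMatrixReindex_pow_two ℚ ℂ b e'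
  have h2 := Algebra.discr_not_zero_of_basis ℚ b
  intro h0
  apply h2
  have h3 : (Algebra.embeddingsMatrixReindex ℚ ℂ b e').det = 0 := by
    rw [← h0, ← Matrix.det_transpose]
    congr 1
    ext i l
    simp only [Matrix.transpose_apply, Matrix.of_apply, Algebra.embeddingsMatrixReindex,
      Matrix.reindex_apply, Matrix.submatrix_apply, Algebra.embeddingsMatrix_apply, hbw]
    rfl
  rw [h3] at h1
  have h4 : algebraMap ℚ ℂ (Algebra.discr ℚ b) = 0 := by rw [h1]; simp
  exact (map_eq_zero _).1 h4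

/-- every number field of degree `N` contains small integers outside a given hypersurface -/
theorem exists_generic_ints (N r : ℕ) (W : MvPolynomial (Fin r × Fin N) ℂ) (hW : W ≠ 0) :
    ∃ C : ℝ, 1 ≤ C ∧ ∀ (K : Type) [Field K] [NumberField K], finrank ℚ K = N →
      ∀ e : Fin N ≃ (K →+* ℂ), ∃ α : Fin r → 𝓞 K,
        eval (fun u : Fin r × Fin N => e u.2 (α u.1 : K)) W ≠ 0 ∧
        ∀ j (φ : K →+* ℂ), ‖φ (α j : K)‖ ≤ C * |(discr K : ℝ)| ^ (1 / (N : ℝ)) := by
  have h0 : (0 : ℝ) ≤ N * W.totalDegree * N := by positivity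
  refine ⟨1 + N * W.totalDegree * N, by linarith, ?_⟩
  intro K _ _ hN e
  subst hN
  obtain ⟨w, hw, hb⟩ := small_basis K
  obtain ⟨c, hc, hne⟩ := exists_small_point _ (det_ne_zero rfl e _ hw) W hW
  refine ⟨fun j => ∑ l, c (j, l) • w l, ?_, fun j φ => ?_⟩
  · convert hne using 3
    funext u
    simp only [Matrix.of_apply]
    push_cast
    rw [map_sum]
    refine Finset.sum_congr rfl fun l _ => ?_
    rw [nsmul_eq_mul, map_mul, map_natCast, mul_comm]
  · have hD : 0 ≤ |(discr K : ℝ)| ^ (1 / (finrank ℚ K : ℝ)) := by positivity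
    have h1 : ((∑ l, c (j, l) • w l : 𝓞 K) : K) = ∑ l, (c (j, l) : K) * (w l : K) := by
      push_cast
      refine Finset.sum_congr rfl fun l _ => ?_
      rw [nsmul_eq_mul]
    rw [h1, map_sum]
    refine (norm_sum_le _ _).trans ?_
    have h2 : ∀ l, ‖φ ((c (j, l) : K) * (w l : K))‖ ≤ W.totalDegree *
        (finrank ℚ K * |(discr K : ℝ)| ^ (1 / (finrank ℚ K : ℝ))) := by
      intro l
      rw [map_mul, map_natCast, norm_mul, Complex.norm_natCast]
      exact mul_le_mul (by exact_mod_cast hc (j, l)) (hb l φ) (norm_nonneg _) (Nat.cast_nonneg _)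
    refine (Finset.sum_le_sum fun l _ => h2 l).trans ?_
    rw [Finset.sum_const, Finset.card_univ, Fintype.card_fin, nsmul_eq_mul]
    nlinarith

end Pool.Agent.HD
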