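import Pool.Agent.HD.Eis
import Pool.Agent.AA.Upper
import Pool.Agent.AAL.HtUp
import Pool.Agent.AAL.Arch

/-!
# Many algebraic integers of degree `m` over `k`
-/

set_option autoImplicit false

open Polynomial NumberField IntermediateField Module

namespace Pool.Agent.HD

/-- many integers of `k` with small conjugates -/
theorem exists_small (k : Type) [Field k] [NumberField k] : ∃ W : ℝ, 1 ≤ W ∧ ∀ M : ℝ, 0 ≤ M →
    ∃ Z : Finset (𝓞 k), (M / W) ^ finrank ℚ k ≤ (Z.card : ℝ) ∧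
      ∀ z ∈ Z, ∀ ρ : k →+* ℂ, ‖ρ (z : k)‖ ≤ M := by
  classical
  set b := RingOfIntegers.basis k with hb
  set W : ℝ := 1 + ∑ ρ : k →+* ℂ, ∑ i, ‖ρ (b i : k)‖ with hW
  have hW0 : 0 ≤ ∑ ρ : k →+* ℂ, ∑ i, ‖ρ (b i : k)‖ :=
    Finset.sum_nonneg fun _ _ => Finset.sum_nonneg fun _ _ => norm_nonneg _
  have hW1 : 1 ≤ W := by rw [hW]; linarith
  refine ⟨W, hW1, fun M hM => ?_⟩
  set N : ℕ := ⌊M / W⌋₊ with hN
  have hN1 : (N : ℝ) ≤ M / W := Nat.floor_le (by positivity)
  have hN2 : M / W < N + 1 := Nat.lt_floor_add_one _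
  set F : Finset (Module.Free.ChooseBasisIndex ℤ (𝓞 k) → ℤ) :=
    Fintype.piFinset fun _ => Finset.Icc (-(N : ℤ)) N with hF
  refine ⟨F.image fun n => b.equivFun.symm n, ?_, ?_⟩
  · have hcard : Fintype.card (Module.Free.ChooseBasisIndex ℤ (𝓞 k)) = finrank ℚ k := by
      rw [← Module.finrank_eq_card_chooseBasisIndex, RingOfIntegers.rank]
    rw [Finset.card_image_of_injective _ b.equivFun.symm.injective, hF,
      Fintype.card_piFinset, Finset.prod_const, Finset.card_univ, hcard, Int.card_Icc]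
    have h1 : ((N : ℤ) + 1 - -(N : ℤ)).toNat = 2 * N + 1 := by omega
    rw [h1]
    push_cast
    refine pow_le_pow_left₀ (by positivity) ?_ _
    have : (0 : ℝ) ≤ N := Nat.cast_nonneg _
    linarith
  · intro z hz ρ
    obtain ⟨n, hn, rfl⟩ := Finset.mem_image.1 hz
    have h1 : ((b.equivFun.symm n : 𝓞 k) : k) = ∑ i, (n i : k) * (b i : k) := by
      rw [Module.Basis.equivFun_symm_apply]
      have h2 : algebraMap (𝓞 k) k (∑ i, n i • b i) = ∑ i, (n i : k) * (b i : k) := by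
        rw [map_sum]
        refine Finset.sum_congr rfl fun i _ => ?_
        rw [zsmul_eq_mul, map_mul, map_intCast]
      exact h2
    rw [h1, map_sum]
    refine (norm_sum_le _ _).trans ?_
    have h3 : ∀ i, ‖ρ ((n i : k) * (b i : k))‖ ≤ N * ‖ρ (b i : k)‖ := by
      intro i
      rw [map_mul, map_intCast, norm_mul, Complex.norm_intCast]
      refine mul_le_mul_of_nonneg_right ?_ (norm_nonneg _)
      have h4 := Finset.mem_Icc.1 (Fintype.mem_piFinset.1 hn i)
      have h5 : |n i| ≤ (N : ℤ) := abs_le.2 h4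
      exact_mod_cast h5
    calc ∑ i, ‖ρ ((n i : k) * (b i : k))‖ ≤ ∑ i, N * ‖ρ (b i : k)‖ :=
          Finset.sum_le_sum fun i _ => h3 i
      _ = N * ∑ i, ‖ρ (b i : k)‖ := by rw [Finset.mul_sum]
      _ ≤ (M / W) * W := by
          refine mul_le_mul hN1 ?_ (Finset.sum_nonneg fun _ _ => norm_nonneg _) (by positivity)
          have h6 : ∑ i, ‖ρ (b i : k)‖ ≤ ∑ ρ : k →+* ℂ, ∑ i, ‖ρ (b i : k)‖ :=
            Finset.single_le_sum (f := fun ρ : k →+* ℂ => ∑ i, ‖ρ (b i : k)‖)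
              (fun _ _ => Finset.sum_nonneg fun _ _ => norm_nonneg _) (Finset.mem_univ ρ)
          rw [hW]
          linarith
      _ = M := by field_simp

/-- a zero of an Eisenstein polynomial -/
private theorem exists_root {k : Type} [Field k] [NumberField k] (π : 𝓞 k)
    (hπ : ∀ (m : ℕ), 0 < m → ∀ z : Fin m → 𝓞 k, Irreducible ((eis π z).map (algebraMap (𝓞 k) k)))
    (B : ℝ) (hB : ∀ ρ : k →+* ℂ, ‖ρ (π : k)‖ ≤ B) (hB0 : 0 ≤ B) (m : ℕ) (hm : 0 < m) (M : ℝ)
    (hM : 0 ≤ M) (z : Fin m → 𝓞 k) (hz : ∀ i, ∀ ρ : k →+* ℂ, ‖ρ (z i : k)‖ ≤ M) :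
    ∃ x : AlgebraicClosure k, IsIntegral ℤ x ∧
      finrank k (IntermediateField.adjoin k {x}) = m ∧
      (minpoly k x = (eis π z).map (algebraMap (𝓞 k) k)) ∧
      (m : ℝ) * AA.height x ≤ Real.log ((m + 1) * (1 + B + 4 * M)) := by
  have hmon := eis_monic π hm z
  have hmon' : ((eis π z).map (algebraMap (𝓞 k) k)).Monic := hmon.map _
  have hdeg := eis_natDegree π hm z
  have hdeg' : ((eis π z).map (algebraMap (𝓞 k) k)).natDegree = m := by
    rw [hmon.natDegree_map, hdeg]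
  obtain ⟨x, hx⟩ := IsAlgClosed.exists_aeval_eq_zero (AlgebraicClosure k)
    ((eis π z).map (algebraMap (𝓞 k) k)) (by
      rw [degree_eq_natDegree hmon'.ne_zero, hdeg']
      exact_mod_cast hm.ne')
  have hmin : minpoly k x = (eis π z).map (algebraMap (𝓞 k) k) :=
    (minpoly.eq_of_irreducible_of_monic (hπ m hm z) hx hmon').symm
  have hfin : finrank k (IntermediateField.adjoin k {x}) = m := by
    rw [IntermediateField.adjoin.finrank (Algebra.IsIntegral.isIntegral x), hmin, hdeg']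
  refine ⟨x, ?_, hfin, hmin, ?_⟩
  · have h1 : IsIntegral (𝓞 k) x := by
      refine ⟨eis π z, hmon, ?_⟩
      rw [← aeval_def, ← aeval_map_algebraMap k x (eis π z)]
      exact hx
    exact isIntegral_trans (R := ℤ) (A := 𝓞 k) x h1
  · have hR : 0 < 1 + B + 4 * M := by positivity
    have h1 := AAL.relHeight_le m (eis π z) x hfin hdeg hmon.ne_zero hx
    have h2 := AAL.lgM_le m (eis π z) x hfin hdeg hmon.ne_zero hx (1 + B + 4 * M) hR ?_
    · rw [AA.UpperAux.relHeight_eq, AA.UpperAux.finrank_eq _ m hfin] at h1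
      have h3 := (Real.exp_le_exp.1 h1).trans h2
      push_cast at h3
      have h4 : (0 : ℝ) < finrank ℚ k := Nat.cast_pos.2 finrank_pos
      rw [mul_assoc] at h3
      exact le_of_mul_le_mul_left h3 h4
    · intro i ρ
      by_cases hi : i < m
      · have h3 := eis_coeff π z ⟨i, hi⟩
        change (eis π z).coeff i = (C π).coeff i + 4 * z ⟨i, hi⟩ at h3
        rw [h3]
        have h4 : ‖ρ (((C π).coeff i : 𝓞 k) : k)‖ ≤ B := by
          rw [coeff_C]
          split_ifs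
          · exact hB ρ
          · simpa using hB0
        have h5 : ‖ρ ((4 * z ⟨i, hi⟩ : 𝓞 k) : k)‖ ≤ 4 * M := by
          have h6' : (ρ.comp (algebraMap (𝓞 k) k)) (4 * z ⟨i, hi⟩) =
              4 * ρ (z ⟨i, hi⟩ : k) := by
            rw [map_mul, map_ofNat]
            rfl
          have h6 : ρ ((4 * z ⟨i, hi⟩ : 𝓞 k) : k) = 4 * ρ (z ⟨i, hi⟩ : k) := h6'
          rw [h6, norm_mul, Complex.norm_ofNat]
          have h7 := hz ⟨i, hi⟩ ρ
          linarith
        have h8 : (((C π).coeff i + 4 * z ⟨i, hi⟩ : 𝓞 k) : k) =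
            (((C π).coeff i : 𝓞 k) : k) + ((4 * z ⟨i, hi⟩ : 𝓞 k) : k) := by
          push_cast
          rfl
        rw [h8, map_add]
        refine (norm_add_le _ _).trans ?_
        linarith
      · rcases (not_lt.1 hi).eq_or_lt with h3 | h3
        · have h4 : (eis π z).coeff i = 1 := by
            have h5 := hmon.coeff_natDegree
            have h6 : (eis π z).natDegree = i := hdeg.trans h3
            rwa [h6] at h5
          rw [h4]
          have h5 : ρ ((1 : 𝓞 k) : k) = 1 := by simp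
          rw [h5, norm_one]
          linarith
        · rw [coeff_eq_zero_of_natDegree_lt (by rw [hdeg]; exact h3)]
          simpa using hR.le

/-- many algebraic integers of degree `m` -/
theorem many_int (k : Type) [Field k] [NumberField k] (m : ℕ) (hm : 0 < m) :
    ∃ c T₀ : ℝ, 0 < c ∧ ∀ T : ℝ, T₀ ≤ T → ∃ S : Finset (AlgebraicClosure k),
      c * Real.exp (finrank ℚ k * (m : ℝ) ^ 2 * T) ≤ (S.card : ℝ) ∧ ∀ x ∈ S, IsIntegral ℤ x ∧
        finrank k (IntermediateField.adjoin k {x}) = m ∧ AA.height x ≤ T := by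
  classical
  obtain ⟨π, hπ⟩ := exists_eisenstein k
  obtain ⟨W, hW, hWZ⟩ := exists_small k
  obtain ⟨B, hB0, hB⟩ : ∃ B : ℝ, 0 ≤ B ∧ ∀ ρ : k →+* ℂ, ‖ρ (π : k)‖ ≤ B := by
    refine ⟨∑ ρ : k →+* ℂ, ‖ρ (π : k)‖, Finset.sum_nonneg fun _ _ => norm_nonneg _, fun ρ => ?_⟩
    exact Finset.single_le_sum (f := fun ρ : k →+* ℂ => ‖ρ (π : k)‖)
      (fun _ _ => norm_nonneg _) (Finset.mem_univ ρ)
  have hm1 : (1 : ℝ) ≤ m := Nat.one_le_cast.2 hm
  have hm0 : (0 : ℝ) < m := by linarith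
  set Q : ℝ := 2 * (m + 1) * (5 + B) with hQ
  have hQ1 : 1 ≤ Q := by
    rw [hQ]
    nlinarith
  refine ⟨(1 / (8 * (m + 1) * W)) ^ (m * finrank ℚ k), Real.log Q, by positivity,
    fun T hT => ?_⟩
  set E : ℝ := Real.exp (m * T) with hE
  have hT0 : 0 ≤ T := (Real.log_nonneg hQ1).trans hT
  have hQE : Q ≤ E := by
    rw [hE, ← Real.log_le_iff_le_exp (by linarith)]
    nlinarith
  have hEm : 2 * (5 + B) ≤ E / (m + 1) := by
    rw [le_div_iff₀ (by positivity)]
    linarith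
  set M : ℝ := E / (8 * (m + 1)) with hM
  have hM0 : 0 ≤ M := by positivity
  have hM2 : 1 + B + 4 * M ≤ E / (m + 1) := by
    have h2 : M = (E / (m + 1)) / 8 := by
      rw [hM]
      field_simp
    rw [h2]
    linarith
  obtain ⟨Z, hZ1, hZ2⟩ := hWZ M hM0
  have key : ∀ z : Fin m → 𝓞 k, (∀ i, z i ∈ Z) → ∃ x : AlgebraicClosure k, IsIntegral ℤ x ∧
      finrank k (IntermediateField.adjoin k {x}) = m ∧
      (minpoly k x = (eis π z).map (algebraMap (𝓞 k) k)) ∧ AA.height x ≤ T := by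
    intro z hz
    obtain ⟨x, h1, h2, h3, h4⟩ := exists_root π hπ B hB hB0 m hm M hM0 z
      fun i ρ => hZ2 (z i) (hz i) ρ
    refine ⟨x, h1, h2, h3, ?_⟩
    have h5 : Real.log ((m + 1) * (1 + B + 4 * M)) ≤ m * T := by
      rw [Real.log_le_iff_le_exp (by positivity), ← hE]
      calc ((m : ℝ) + 1) * (1 + B + 4 * M) ≤ (m + 1) * (E / (m + 1)) :=
            mul_le_mul_of_nonneg_left hM2 (by positivity)
        _ = E := by field_simp
    exact le_of_mul_le_mul_left (h4.trans h5) hm0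
  choose! ξ hξ1 hξ2 hξ3 hξ4 using key
  set F : Finset (Fin m → 𝓞 k) := Fintype.piFinset fun _ => Z with hF
  have hFz : ∀ z ∈ F, ∀ i, z i ∈ Z := fun z hz i => Fintype.mem_piFinset.1 hz i
  have hinj : Set.InjOn ξ F := by
    intro z hz z' hz' h
    have h1 := hξ3 z (hFz z hz)
    have h2 := hξ3 z' (hFz z' hz')
    rw [h, h2] at h1
    exact (eis_injective π (map_injective _ (FaithfulSMul.algebraMap_injective (𝓞 k) k) h1)).symm
  refine ⟨F.image ξ, ?_, ?_⟩
  · rw [Finset.card_image_of_injOn hinj, hF, Fintype.card_piFinset, Finset.prod_const,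
      Finset.card_univ, Fintype.card_fin]
    push_cast
    have h2 : Real.exp (finrank ℚ k * (m : ℝ) ^ 2 * T) = E ^ (m * finrank ℚ k) := by
      rw [hE, ← Real.exp_nat_mul]
      congr 1
      push_cast
      ring
    rw [h2, ← mul_pow]
    have h3 : 1 / (8 * ((m : ℝ) + 1) * W) * E = M / W := by
      rw [hM]
      field_simp
    rw [h3, mul_comm m, pow_mul]
    exact pow_le_pow_left₀ (by positivity) hZ1 _
  · intro x hx
    obtain ⟨z, hz, rfl⟩ := Finset.mem_image.1 hx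
    exact ⟨hξ1 z (hFz z hz), hξ2 z (hFz z hz), hξ4 z (hFz z hz)⟩

end Pool.Agent.HD
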