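import Pool.Agent.DD7719.Minima

/-!
# The ring of integers has a basis of small vectors

Every number field `K` of degree `n` contains `n` linearly independent integers all of whose
conjugates have absolute value at most `n |D_K| ^ (1 / n)`.
-/

set_option autoImplicit false

open Module NumberField

namespace Pool.Agent.HD

/-- the square of the euclidean norm of the vector of the conjugates -/
noncomputable def nn {K : Type} [Field K] [NumberField K] (a : K) : ℝ :=
  ∑ φ : K →+* ℂ, ‖φ a‖ ^ 2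

section

variable {K : Type} [Field K] [NumberField K]

theorem nn_nonneg (a : K) : 0 ≤ nn a := Finset.sum_nonneg fun _ _ => sq_nonneg _

theorem norm_sq_le_nn (a : K) (φ : K →+* ℂ) : ‖φ a‖ ^ 2 ≤ nn a :=
  Finset.single_le_sum (f := fun φ : K →+* ℂ => ‖φ a‖ ^ 2) (fun _ _ => sq_nonneg _)
    (Finset.mem_univ φ)

theorem nn_pos {a : K} (ha : a ≠ 0) : 0 < nn a := by
  obtain ⟨φ⟩ : Nonempty (K →+* ℂ) := inferInstance
  refine lt_of_lt_of_le ?_ (norm_sq_le_nn a φ)
  have : φ a ≠ 0 := (map_ne_zero φ).2 ha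
  positivity

theorem nn_mul_le (a b : K) : nn (a * b) ≤ nn a * nn b := by
  unfold nn
  rw [Finset.mul_sum]
  refine Finset.sum_le_sum fun φ _ => ?_
  rw [map_mul, norm_mul, mul_pow]
  exact mul_le_mul_of_nonneg_right (norm_sq_le_nn a φ) (sq_nonneg _)

theorem finite_nn_le (R : ℝ) : {y : 𝓞 K | nn (y : K) ≤ R}.Finite := by
  have h := NumberField.Embeddings.finite_of_norm_le K ℂ (Real.sqrt R)
  refine Set.Finite.of_finite_image (f := fun y : 𝓞 K => (y : K)) (h.subset ?_)
    (fun _ _ _ _ h => RingOfIntegers.coe_injective h)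
  rintro _ ⟨y, hy, rfl⟩
  refine ⟨y.2, fun φ => ?_⟩
  have h1 : ‖φ (y : K)‖ ^ 2 ≤ R := (norm_sq_le_nn _ φ).trans hy
  exact Real.le_sqrt_of_sq_le h1

theorem exists_int_mul (x : K) : ∃ n : ℤ, n ≠ 0 ∧ ∃ y : 𝓞 K, (y : K) = (n : K) * x := by
  obtain ⟨n, hn, h⟩ := exists_integral_multiples ℤ ℚ (L := K) {x}
  refine ⟨n, hn, ⟨(n : K) * x, ?_⟩, rfl⟩
  have := h x (Finset.mem_singleton_self x)
  rw [zsmul_eq_mul] at this
  exact this

theorem exists_min (S : Submodule ℚ K) (hS : S ≠ ⊤) :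
    ∃ y : 𝓞 K, (y : K) ∉ S ∧ ∀ z : 𝓞 K, (z : K) ∉ S → nn (y : K) ≤ nn (z : K) := by
  obtain ⟨x, -, hx⟩ := SetLike.exists_of_lt (lt_top_iff_ne_top.mpr hS)
  obtain ⟨n, hn, y0, hy0⟩ := exists_int_mul x
  have hy0S : (y0 : K) ∉ S := by
    rw [hy0]
    intro h
    apply hx
    have := S.smul_mem ((n : ℚ)⁻¹) h
    have e : ((n : ℚ)⁻¹) • ((n : K) * x) = x := by
      rw [Algebra.smul_def]
      have h0 : (n : K) ≠ 0 := by exact_mod_cast hn
      push_cast
      simp only [map_intCast]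
      field_simp
    rwa [e] at this
  have hfin : {y : 𝓞 K | (y : K) ∉ S ∧ nn (y : K) ≤ nn (y0 : K)}.Finite :=
    (finite_nn_le (K := K) (nn (y0 : K))).subset fun y hy => hy.2
  obtain ⟨y, hy, hmin⟩ := Set.exists_min_image _ (fun y : 𝓞 K => nn (y : K)) hfin
    ⟨y0, hy0S, le_rfl⟩
  refine ⟨y, hy.1, fun z hz => ?_⟩
  by_cases h : nn (z : K) ≤ nn (y0 : K)
  · exact hmin z ⟨hz, h⟩
  · exact (hmin y0 ⟨hy0S, le_rfl⟩).trans (not_le.mp h).le

/-- the span of the first `m` members of a sequence -/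
def VS (y : ℕ → 𝓞 K) (m : ℕ) : Submodule ℚ K :=
  Submodule.span ℚ (Set.range fun l : Fin m => ((y l : 𝓞 K) : K))

theorem VS_mono (y : ℕ → 𝓞 K) {m n : ℕ} (h : m ≤ n) : VS y m ≤ VS y n := by
  apply Submodule.span_mono
  rintro _ ⟨l, rfl⟩
  exact ⟨⟨l, l.2.trans_le h⟩, rfl⟩

theorem mem_VS (y : ℕ → 𝓞 K) {l n : ℕ} (h : l < n) : ((y l : 𝓞 K) : K) ∈ VS y n :=
  Submodule.subset_span ⟨⟨l, h⟩, rfl⟩

theorem finrank_VS_le (y : ℕ → 𝓞 K) (m : ℕ) : finrank ℚ (VS y m) ≤ m := by
  have := finrank_range_le_card (R := ℚ) (fun l : Fin m => ((y l : 𝓞 K) : K))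
  rwa [Fintype.card_fin] at this

theorem VS_ne_top (y : ℕ → 𝓞 K) {m : ℕ} (hm : m < finrank ℚ K) : VS y m ≠ ⊤ := by
  intro h
  have h1 := finrank_VS_le y m
  rw [h, finrank_top] at h1
  omega

/-- a sequence of successive minima -/
theorem exists_minima : ∃ y : ℕ → 𝓞 K, ∀ m < finrank ℚ K, ((y m : 𝓞 K) : K) ∉ VS y m ∧
    ∀ z : 𝓞 K, (z : K) ∉ VS y m → nn ((y m : 𝓞 K) : K) ≤ nn (z : K) := by
  obtain ⟨y, hy⟩ := DD7719.M.exists_seq_prefix (X := 𝓞 K)
    (fun m p x => Submodule.span ℚ (Set.range fun l : Fin m => ((p l : 𝓞 K) : K)) ≠ ⊤ →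
      (x : K) ∉ Submodule.span ℚ (Set.range fun l : Fin m => ((p l : 𝓞 K) : K)) ∧
      ∀ z : 𝓞 K, (z : K) ∉ Submodule.span ℚ (Set.range fun l : Fin m => ((p l : 𝓞 K) : K)) →
        nn (x : K) ≤ nn (z : K)) (by
    intro m p
    by_cases h : Submodule.span ℚ (Set.range fun l : Fin m => ((p l : 𝓞 K) : K)) = ⊤
    · exact ⟨0, fun h' => absurd h h'⟩
    · obtain ⟨x, hx⟩ := exists_min _ h
      exact ⟨x, fun _ => hx⟩)
  exact ⟨y, fun m hm => hy m (VS_ne_top y hm)⟩

variable {y : ℕ → 𝓞 K} (hy : ∀ m < finrank ℚ K, ((y m : 𝓞 K) : K) ∉ VS y m ∧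
    ∀ z : 𝓞 K, (z : K) ∉ VS y m → nn ((y m : 𝓞 K) : K) ≤ nn (z : K))

include hy

theorem linInd (m : ℕ) (hm : m ≤ finrank ℚ K) :
    LinearIndependent ℚ (fun l : Fin m => ((y l : 𝓞 K) : K)) := by
  induction m with
  | zero => exact linearIndependent_empty_type
  | succ m ih =>
    rw [linearIndependent_finSucc']
    exact ⟨ih (by omega), (hy m (by omega)).1⟩

theorem finrank_VS (m : ℕ) (hm : m ≤ finrank ℚ K) : finrank ℚ (VS y m) = m := by
  have := finrank_span_eq_card (linInd hy m hm)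
  rwa [Fintype.card_fin] at this

theorem nn_mono {l m : ℕ} (hlm : l ≤ m) (hm : m < finrank ℚ K) :
    nn ((y l : 𝓞 K) : K) ≤ nn ((y m : 𝓞 K) : K) :=
  (hy l (by omega)).2 _ fun h => (hy m hm).1 (VS_mono y hlm h)

theorem exists_level (x : 𝓞 K) (hx : (x : K) ≠ 0) : ∃ m < finrank ℚ K, (x : K) ∈ VS y (m + 1) ∧
    nn ((y m : 𝓞 K) : K) ≤ nn (x : K) := by
  classical
  have htop : VS y (finrank ℚ K) = ⊤ := by
    apply Submodule.eq_top_of_finrank_eq
    exact finrank_VS hy _ le_rfl
  have hex : ∃ m, (x : K) ∈ VS y m := ⟨_, htop ▸ Submodule.mem_top⟩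
  have h0 : Nat.find hex ≠ 0 := by
    intro h
    have h1 := Nat.find_spec hex
    rw [h] at h1
    apply hx
    have h2 : VS y 0 = ⊥ := by
      unfold VS
      rw [Submodule.span_eq_bot]
      rintro _ ⟨l, rfl⟩
      exact l.elim0
    rw [h2] at h1
    exact (Submodule.mem_bot ℚ).1 h1
  obtain ⟨m, hm⟩ := Nat.exists_eq_succ_of_ne_zero h0
  have hle : Nat.find hex ≤ finrank ℚ K := Nat.find_min' hex (htop ▸ Submodule.mem_top)
  have hspec := Nat.find_spec hex
  rw [hm] at hspec
  refine ⟨m, by omega, hspec, ?_⟩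
  exact (hy m (by omega)).2 x (Nat.find_min hex (by omega))

theorem last_le_mul (i : ℕ) (hi : i < finrank ℚ K) :
    nn ((y (finrank ℚ K - 1) : 𝓞 K) : K) ≤
      nn ((y i : 𝓞 K) : K) * nn ((y (finrank ℚ K - 1 - i) : 𝓞 K) : K) := by
  set n := finrank ℚ K with hn
  obtain ⟨φ, hφ0, hφ⟩ := Submodule.exists_le_ker_of_lt_top (VS y (n - 1))
    (lt_top_iff_ne_top.2 (VS_ne_top y (by omega)))
  -- the bilinear form
  let b : LinearMap.BilinForm ℚ K := (LinearMap.mul ℚ K).compr₂ φ
  have hb : ∀ u v, b u v = φ (u * v) := fun u v => rfl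
  have hsep : ∀ u : K, (∀ v, φ (u * v) = 0) → u = 0 := by
    intro u hu
    by_contra hne
    apply hφ0
    ext v
    have := hu (u⁻¹ * v)
    rw [mul_inv_cancel_left₀ hne] at this
    simpa using this
  have hnd : b.Nondegenerate := by
    refine ⟨fun u hu => hsep u hu, fun u hu => hsep u fun v => ?_⟩
    rw [mul_comm]
    exact hu v
  have hcon : ∃ a ≤ i, ∃ c ≤ n - 1 - i, φ (((y a : 𝓞 K) : K) * ((y c : 𝓞 K) : K)) ≠ 0 := by
    by_contra hall
    push Not at hall
    have h1 : VS y (n - i) ≤ b.orthogonal (VS y (i + 1)) := by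
      rw [VS, Submodule.span_le]
      rintro _ ⟨c, rfl⟩
      rw [SetLike.mem_coe, LinearMap.BilinForm.mem_orthogonal_iff]
      intro u hu
      show b u _ = 0
      rw [VS] at hu
      induction hu using Submodule.span_induction with
      | mem u hu =>
        obtain ⟨a, rfl⟩ := hu
        rw [hb]
        exact hall a (by omega) c (by omega)
      | zero => simp
      | add u v _ _ h1 h2 => rw [map_add, LinearMap.add_apply, h1, h2, add_zero]
      | smul q u _ h1 => rw [map_smul, LinearMap.smul_apply, h1, smul_zero]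
    have h2 := Submodule.finrank_mono h1
    have h3 := LinearMap.BilinForm.finrank_orthogonal hnd (VS y (i + 1))
    rw [finrank_VS hy _ (by omega)] at h2
    rw [finrank_VS hy _ (by omega)] at h3
    omega
  obtain ⟨a, ha, c, hc, hne⟩ := hcon
  have h1 : (((y a * y c : 𝓞 K)) : K) ∉ VS y (n - 1) := by
    intro h
    apply hne
    have := hφ h
    rw [LinearMap.mem_ker] at this
    exact_mod_cast this
  have h2 := (hy (n - 1) (by omega)).2 _ h1
  have h3 : nn (((y a * y c : 𝓞 K)) : K) ≤ nn ((y a : 𝓞 K) : K) * nn ((y c : 𝓞 K) : K) := by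
    have : (((y a * y c : 𝓞 K)) : K) = ((y a : 𝓞 K) : K) * ((y c : 𝓞 K) : K) := by push_cast; rfl
    rw [this]
    exact nn_mul_le _ _
  refine h2.trans (h3.trans ?_)
  exact mul_le_mul (nn_mono hy ha hi) (nn_mono hy hc (by omega)) (nn_nonneg _) (nn_nonneg _)

open scoped Classical in
theorem prod_nn_le : ∏ a : Fin (finrank ℚ K), nn ((y a : 𝓞 K) : K) ≤
    (finrank ℚ K : ℝ) ^ finrank ℚ K * |(discr K : ℝ)| := by
  set n := finrank ℚ K with hn
  have hn0 : 0 < n := finrank_pos
  obtain ⟨B, hB0, hB1, hB2⟩ := DD7719.M.exists_real_mat (K := K) (N := 1)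
    (fun _ => (1 : Matrix (Fin 1) (Fin 1) ℂ)) (by
      intro σ j i
      rw [Matrix.one_apply]
      split_ifs <;> simp) (by intro σ; simp)
  have hcard : Fintype.card (Fin 1 × (K →+* ℂ)) = n := by
    rw [Fintype.card_prod, Fintype.card_fin, one_mul, Embeddings.card]
  have hdet : |B.det| ^ 2 = |(discr K : ℝ)| := by
    rw [hB1]
    simp only [Matrix.det_one, norm_one, Finset.prod_const_one, one_mul, pow_one]
    have h1 : ((discr K : ℤ) : ℂ) = (basisMatrix K).det ^ 2 := discr_eq_basisMatrix_det_sq K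
    have h2 := congrArg norm h1
    rw [norm_pow, Complex.norm_intCast] at h2
    exact h2.symm
  have hnrm : ∀ x : Fin 1 × (K →+* ℂ) → ℤ,
      nn ((DD7719.M.ofCoord x 0 : 𝓞 K) : K) = ∑ i, (B.mulVec (fun j => (x j : ℝ)) i) ^ 2 := by
    intro x
    rw [← hB2, DD7719.M.nrm, nn]
    refine Finset.sum_congr rfl fun σ _ => ?_
    simp [Matrix.one_mulVec]
  have hpos : ∀ a : Fin n, 0 < Real.sqrt (nn ((y a : 𝓞 K) : K)) := by
    intro a
    apply Real.sqrt_pos.2
    apply nn_pos
    intro h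
    apply (hy a a.2).1
    rw [h]
    exact Submodule.zero_mem _
  choose z hz using fun a : Fin n => DD7719.M.ofCoord_surjective (K := K) (N := 1)
    (fun _ => y a)
  have hmain := DD7719.M.minkowski_flag' hcard B hB0 z
    (fun a => Real.sqrt (nn ((y a : 𝓞 K) : K))) hpos
    (fun a c hac => Real.sqrt_le_sqrt (nn_mono hy hac c.2)) ?_
  · have h1 : 0 ≤ ∏ a : Fin n, Real.sqrt (nn ((y a : 𝓞 K) : K)) :=
      Finset.prod_nonneg fun a _ => Real.sqrt_nonneg _
    have h2 := pow_le_pow_left₀ h1 hmain 2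
    rw [← Finset.prod_pow, mul_pow, hdet, ← pow_mul, mul_comm n 2, pow_mul,
      Real.sq_sqrt (Nat.cast_nonneg n)] at h2
    simpa only [Real.sq_sqrt (nn_nonneg _)] using h2
  · intro x hx
    have hx0 : ((DD7719.M.ofCoord x 0 : 𝓞 K) : K) ≠ 0 := by
      intro h
      apply hx
      apply DD7719.M.ofCoord_injective (K := K) (N := 1)
      funext i
      have h1 : DD7719.M.ofCoord (K := K) x 0 = 0 := RingOfIntegers.coe_injective h
      rw [Subsingleton.elim i 0, h1]
      simp [DD7719.M.ofCoord]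
    obtain ⟨m, hm, hmem, hle⟩ := exists_level hy (DD7719.M.ofCoord x 0) hx0
    refine ⟨⟨m, hm⟩, ?_, ?_⟩
    · -- coordinates
      rw [VS, Submodule.mem_span_range_iff_exists_fun] at hmem
      obtain ⟨q, hq⟩ := hmem
      obtain ⟨d, hd, hdq⟩ : ∃ d : ℤ, d ≠ 0 ∧ ∀ l : Fin (m + 1), ∃ e : ℤ, (e : ℚ) = d * q l := by
        obtain ⟨d, hd⟩ := IsLocalization.exist_integer_multiples_of_finset (nonZeroDivisors ℤ)
          (Finset.univ.image q)
        refine ⟨d, nonZeroDivisors.ne_zero d.2, fun l => ?_⟩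
        obtain ⟨e, he⟩ := hd (q l) (Finset.mem_image_of_mem _ (Finset.mem_univ l))
        refine ⟨e, ?_⟩
        have h1 : (e : ℚ) = (d : ℤ) • q l := he
        rw [h1, zsmul_eq_mul]
      choose e he using hdq
      refine ⟨d, hd, fun a => if h : (a : ℕ) < m + 1 then e ⟨a, h⟩ else 0, fun a ha => ?_, ?_⟩
      · have : ¬ ((a : ℕ) < m + 1) := by
          have : m < (a : ℕ) := ha
          omega
        exact dif_neg this
      · -- equality of vectors
        have hK : ((d • DD7719.M.ofCoord x 0 : 𝓞 K) : K) =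
            ((∑ a : Fin n, (if h : (a : ℕ) < m + 1 then e ⟨a, h⟩ else 0) •
              DD7719.M.ofCoord (z a) 0 : 𝓞 K) : K) := by
          have h1 : ∀ a : Fin n, DD7719.M.ofCoord (K := K) (z a) 0 = y a := fun a =>
            congrFun (hz a) 0
          simp only [h1]
          change algebraMap (𝓞 K) K _ = algebraMap (𝓞 K) K _
          rw [map_zsmul, map_sum, zsmul_eq_mul]
          simp only [map_zsmul]
          have hq' : algebraMap (𝓞 K) K (DD7719.M.ofCoord x 0) =
              ∑ l : Fin (m + 1), q l • algebraMap (𝓞 K) K (y l) := hq.symm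
          rw [hq', Finset.mul_sum]
          have h2 : ∀ l : Fin (m + 1), ((d : ℤ) : K) * (q l • ((y l : 𝓞 K) : K)) =
              ((e l : ℤ) : K) * ((y l : 𝓞 K) : K) := by
            intro l
            have h3 : ((e l : ℤ) : K) = ((d : ℤ) : K) * algebraMap ℚ K (q l) := by
              have := congrArg (algebraMap ℚ K) (he l)
              simpa using this
            rw [h3, Algebra.smul_def]
            ring
          rw [Finset.sum_congr rfl fun l _ => h2 l]
          have hmn : m + 1 ≤ n := hm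
          rw [← Finset.sum_subset (Finset.subset_univ
            ((Finset.univ : Finset (Fin (m + 1))).map (Fin.castLEEmb hmn)))]
          · rw [Finset.sum_map]
            refine Finset.sum_congr rfl fun l _ => ?_
            have hl : ((Fin.castLEEmb hmn l : Fin n) : ℕ) < m + 1 := l.2
            rw [dif_pos hl, zsmul_eq_mul]
            rfl
          · intro a _ ha
            have : ¬ ((a : ℕ) < m + 1) := by
              intro h
              apply ha
              rw [Finset.mem_map]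
              exact ⟨⟨a, h⟩, Finset.mem_univ _, rfl⟩
            rw [dif_neg this]
            simp
        have hO := RingOfIntegers.coe_injective hK
        have hinj : d • x = ∑ a : Fin n, (if h : (a : ℕ) < m + 1 then e ⟨a, h⟩ else 0) • z a := by
          apply DD7719.M.ofCoord_injective (K := K) (N := 1)
          funext i
          rw [Subsingleton.elim i 0]
          have hlin : ∀ (c : ℤ) (v : Fin 1 × (K →+* ℂ) → ℤ),
              DD7719.M.ofCoord (K := K) (c • v) 0 = c • DD7719.M.ofCoord v 0 := by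
            intro c v
            simp only [DD7719.M.ofCoord, Finset.smul_sum, Pi.smul_apply, smul_eq_mul, mul_smul]
          have hadd : ∀ (c : Fin n → ℤ) (s : Finset (Fin n)),
              DD7719.M.ofCoord (K := K) (∑ a ∈ s, c a • z a) 0 =
                ∑ a ∈ s, c a • DD7719.M.ofCoord (z a) 0 := by
            intro c s
            induction s using Finset.induction_on with
            | empty => simp [DD7719.M.ofCoord]
            | insert a s ha ih =>
              rw [Finset.sum_insert ha, Finset.sum_insert ha, ← ih, ← hlin]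
              simp only [DD7719.M.ofCoord, Pi.add_apply, add_smul, Finset.sum_add_distrib]
          rw [hlin, hadd, hO]
        intro j
        have := congrFun hinj j
        rw [Finset.sum_apply] at this
        exact this
    · rw [Real.sq_sqrt (nn_nonneg _), ← hnrm]
      exact hle

end

/-- `K` has a basis of integers all of whose conjugates have absolute value at most
`n |D_K| ^ (1 / n)` -/
theorem small_basis (K : Type) [Field K] [NumberField K] :
    ∃ w : Fin (finrank ℚ K) → 𝓞 K, LinearIndependent ℚ (fun i => ((w i : 𝓞 K) : K)) ∧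
      ∀ i (φ : K →+* ℂ), ‖φ (w i : K)‖ ≤
        finrank ℚ K * |(discr K : ℝ)| ^ (1 / (finrank ℚ K : ℝ)) := by
  obtain ⟨y, hy⟩ := exists_minima (K := K)
  refine ⟨fun i => y i, linInd hy _ le_rfl, ?_⟩
  set n := finrank ℚ K with hn
  intro i φ
  have hn0 : 0 < n := finrank_pos
  set D := |(discr K : ℝ)| with hD
  have hD0 : 0 ≤ D := abs_nonneg _
  set L := nn ((y (n - 1) : 𝓞 K) : K) with hL
  have hL0 : 0 ≤ L := nn_nonneg _
  have h1 := prod_nn_le hy
  have h2 : L ^ n ≤ ((n : ℝ) ^ n * D) ^ 2 := by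
    have h3 : ∏ a : Fin n, L ≤ ∏ a : Fin n,
        (nn ((y a : 𝓞 K) : K) * nn ((y (n - 1 - a) : 𝓞 K) : K)) :=
      Finset.prod_le_prod (fun _ _ => hL0) fun a _ => last_le_mul hy a a.2
    have h4 : ∏ a : Fin n, nn ((y (n - 1 - a) : 𝓞 K) : K) =
        ∏ a : Fin n, nn ((y a : 𝓞 K) : K) := by
      rw [← Equiv.prod_comp Fin.revPerm (fun a : Fin n => nn ((y a : 𝓞 K) : K))]
      refine Finset.prod_congr rfl fun a _ => ?_
      have : ((Fin.revPerm a : Fin n) : ℕ) = n - 1 - a := by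
        simp only [Fin.revPerm_apply, Fin.val_rev]
        omega
      rw [this]
    rw [Finset.prod_const, Finset.card_univ, Fintype.card_fin, Finset.prod_mul_distrib, h4,
      ← pow_two] at h3
    exact h3.trans (pow_le_pow_left₀ (Finset.prod_nonneg fun _ _ => nn_nonneg _) h1 2)
  have h5 : ‖φ ((y i : 𝓞 K) : K)‖ ^ 2 ≤ L :=
    (norm_sq_le_nn _ φ).trans (nn_mono hy (by omega) (by omega))
  have h6 : (‖φ ((y i : 𝓞 K) : K)‖ ^ n) ^ 2 ≤ ((n : ℝ) ^ n * D) ^ 2 := by
    rw [← pow_mul, mul_comm n 2, pow_mul]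
    exact (pow_le_pow_left₀ (by positivity) h5 n).trans h2
  have h7 : ‖φ ((y i : 𝓞 K) : K)‖ ^ n ≤ (n : ℝ) ^ n * D :=
    (pow_le_pow_iff_left₀ (by positivity) (by positivity) two_ne_zero).1 h6
  have h8 : (n : ℝ) ^ n * D = ((n : ℝ) * D ^ (1 / (n : ℝ))) ^ n := by
    rw [mul_pow, ← Real.rpow_natCast (D ^ (1 / (n : ℝ))), ← Real.rpow_mul hD0,
      one_div_mul_cancel (by positivity), Real.rpow_one]
  rw [h8] at h7
  have h9 : (0 : ℝ) ≤ (n : ℝ) * D ^ (1 / (n : ℝ)) := by positivity
  show ‖φ ((y i : 𝓞 K) : K)‖ ≤ (n : ℝ) * D ^ (1 / (n : ℝ))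
  exact (pow_le_pow_iff_left₀ (norm_nonneg _) h9 hn0.ne').1 h7

end Pool.Agent.HD
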